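import Mathlib
import Pool.Agent.Helper10.GIT.Cayley
import Pool.Agent.Helper10.GIT.Integral
import Pool.Agent.Helper11.GIT.Kempf

/-!
# Tensors all of whose contractions vanish: definitions
-/

open Finset Matrix

namespace Pool.Agent.Helper11.Iso

open Pool.Agent.Helper10.GIT

variable {m : ℕ} {n : Fin m → ℕ}

/-- all full contractions of products of tensors in `P` with products of tensors in `Q` vanish -/
def TraceZero {R : Type*} [CommRing R] (P Q : Set (Idx n → R)) : Prop :=
  ∀ (k : ℕ), 0 < k → ∀ (π : Fin m → Equiv.Perm (Fin k)) (z y : Fin k → Idx n → R),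
    (∀ r, z r ∈ P) → (∀ r, y r ∈ Q) →
    ∑ W : Fin k → Idx n, (∏ r, z r (W r)) * ∏ r, y r (fun t => W (π t r) t) = 0

/-- the coordinates of the contragredient translates of `y` by the generic matrices, multiplied by
the generic determinant -/
noncomputable def dcoord {R : Type*} [CommRing R] (y : Idx n → R) (w : Idx n) :
    MvPolynomial (GV n) R :=
  act (fun t => ((gen n R t).adjugate)ᵀ) (fun w' => MvPolynomial.C (y w')) w

variable (n) in
/-- the product of the generic determinants -/
noncomputable def gdet (R : Type*) [CommRing R] : MvPolynomial (GV n) R :=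
  genDet n R (fun _ => 1)

variable {κ : Type*} [Field κ]

/-- the contragredient of a tuple of matrices -/
noncomputable def contra (h : Mats n κ) : Mats n κ := fun t => ((h t)⁻¹)ᵀ

/-- the difference of the weights of two multi-indices -/
noncomputable def dw (p : Idx n × Idx n) : WSpace n := wt p.1 - wt p.2

/-- the supports of `P` and `Q` after the change of bases `h` -/
def dsupp (h : Mats n κ) (P Q : Set (Idx n → κ)) : Set (Idx n × Idx n) :=
  supp h P ×ˢ supp (contra h) Q

/-- the bases `h` destabilise the pair `(P, Q)` -/
def Bad2 (h : Mats n κ) (P Q : Set (Idx n → κ)) : Prop :=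
  (0 : WSpace n) ∉ convexHull ℝ (dw '' dsupp h P Q)

/-- the image of a set of tensors in an extension field -/
def ext {Ω : Type*} (κ : Type*) [Field Ω] [Field κ] [Algebra Ω κ] (P : Set (Idx n → Ω)) :
    Set (Idx n → κ) := (fun z w => algebraMap Ω κ (z w)) '' P

end Pool.Agent.Helper11.Iso
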