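import Mathlib
import Pool.Agent.Helper10.Retract
import Pool.Agent.Helper11.LettersD

/-!
# Varieties whose cohomology is spanned, relative to `X`, by words in letters
-/

universe u v w t

open CategoryTheory

namespace Pool.Agent.Helper11.Iso

open Pool.Agent.Helper10 SmProjVar SPre

variable {k : Type u} [Field k] {K : Type t} [Field K] {Ω : Type v} [Field Ω] [Algebra K Ω]
  {P : SPre.{u, v, w, t} k K Ω}

/-- `X'` is a retract of a power of `X` -/
def PowLike (X X' : SmProjVar k) : Prop := ∃ m, Retract X' (X.selfProd m)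

lemma PowLike.refl (X : SmProjVar k) : PowLike X X := ⟨0, Retract.refl X⟩

lemma PowLike.pow (X : SmProjVar k) (m : ℕ) : PowLike X (X.selfProd m) := ⟨m, Retract.refl _⟩

lemma PowLike.prod {X A B : SmProjVar k} (hA : PowLike X A) (hB : PowLike X B) :
    PowLike X (A.prod B) := by
  obtain ⟨a, ha⟩ := hA
  obtain ⟨b, hb⟩ := hB
  exact ⟨_, (ha.prod hb).trans (Retract.pow_prod_pow X a b)⟩

lemma PowLike.dp {X A : SmProjVar k} (hA : PowLike X A) (hX : P.DP X) : P.DP A := by
  obtain ⟨a, ha⟩ := hA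
  exact (hX.pow a).retract ha

variable (P) in
/-- a system of letters: homogeneous classes, stable under pull-back, the contraction of
numerically trivial classes with products of which vanishes -/
structure IsLetters (L : ∀ T : SmProjVar k, Set (P.H T)) : Prop where
  hom : ∀ T, ∀ y ∈ L T, P.Hom T y
  pull : ∀ {T Z : SmProjVar k} (f : T.toOver ⟶ Z.toOver), ∀ y ∈ L Z, P.pull f y ∈ L T
  zero : ∀ X, P.DP X → ∀ T, ∀ w ∈ Submonoid.closure (L T), ∀ r, P.rad (X.prod T) r →
    P.contr X T w r = 0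

variable (P) in
/-- the images, under algebraic correspondences, of products of classes on powers of `X` and
words -/
def rgen (L : ∀ T : SmProjVar k, Set (P.H T)) (X Z : SmProjVar k) : Set (P.H Z) :=
  {z | ∃ (X' T : SmProjVar k) (p : T.toOver ⟶ X'.toOver) (q : T.toOver ⟶ Z.toOver) (c : P.H T)
    (w : P.H T) (x : P.H X'), PowLike X X' ∧ c ∈ P.alg T ∧ w ∈ Submonoid.closure (L T) ∧
      P.Hom X' x ∧ z = P.pushF q (c * w * P.pull p x)}

/-! ### push-forward of external products -/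

lemma pushF_comp {A B C : SmProjVar k} (f : A.toOver ⟶ B.toOver) (g : B.toOver ⟶ C.toOver)
    (x : P.H A) : P.pushF (f ≫ g) x = P.pushF g (P.pushF f x) := by
  refine eq_of_tr fun z => ?_
  rw [tr_pushF, tr_pushF, tr_pushF, pull_pull]

lemma pushF_id {A : SmProjVar k} (x : P.H A) : P.pushF (𝟙 A.toOver) x = x := by
  refine eq_of_tr fun z => ?_
  rw [tr_pushF, P.pull_id]
  rfl

/-- projection formula -/
lemma pushF_mul_pull {A B : SmProjVar k} (f : A.toOver ⟶ B.toOver) (x : P.H A) (y : P.H B) :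
    P.pushF f (x * P.pull f y) = P.pushF f x * y := by
  refine eq_of_tr fun z => ?_
  rw [tr_pushF, mul_assoc, ← map_mul (P.pull f), ← tr_pushF, mul_assoc]

/-- projection formula -/
lemma pushF_pull_mul {A B : SmProjVar k} (f : A.toOver ⟶ B.toOver) (x : P.H A) (y : P.H B) :
    P.pushF f (P.pull f y * x) = y * P.pushF f x := by
  refine eq_of_tr fun z => ?_
  rw [tr_pushF, mul_assoc, mul_assoc, ← pushF_mul_pull, tr_mul_pushF]

lemma hom_span (V : SmProjVar k) : Submodule.span Ω {x : P.H V | P.Hom V x} = ⊤ := by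
  rw [eq_top_iff]
  intro x _
  obtain ⟨a, ha, b, hb, rfl⟩ := P.exists_decomp V x
  exact Submodule.add_mem _ (Submodule.subset_span (.inl ha)) (Submodule.subset_span (.inr hb))

/-- two classes on a product are equal if their pairings with external products of homogeneous
classes are -/
lemma eq_of_tr_ext {A B : SmProjVar k} {x y : P.H (A.prod B)}
    (h : ∀ a b, P.Hom A a → P.Hom B b →
      P.tr _ (x * P.ext A B a b) = P.tr _ (y * P.ext A B a b)) : x = y := by
  refine eq_of_tr fun z => ?_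
  have hz : z ∈ Submodule.span Ω {z : P.H (A.prod B) | ∃ x ∈ {x : P.H A | P.Hom A x},
      ∃ y ∈ {y : P.H B | P.Hom B y}, z = P.ext A B x y} := by
    rw [P.span_ext_sets A B _ _ (hom_span A) (hom_span B)]; trivial
  induction hz using Submodule.span_induction with
  | mem z hz =>
    obtain ⟨a, ha, b, hb, rfl⟩ := hz
    exact h a b ha hb
  | zero => rw [mul_zero, mul_zero]
  | add a b _ _ ha hb => rw [mul_add, mul_add, map_add, map_add, ha, hb]
  | smul a x _ hx => rw [mul_smul_comm, mul_smul_comm, map_smul, map_smul, hx]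

lemma tr_ext_mul (A B : SmProjVar k) (a a' : P.H A) (b b' : P.H B) (hb : P.Hom B b)
    (ha' : P.Hom A a') : ∃ s : ℤ, (s = 1 ∨ s = -1) ∧
      (∀ (C D : SmProjVar k) (u : P.H C) (v : P.H D) (u' : P.H C) (v' : P.H D),
        ((b ∈ P.ev B → v ∈ P.ev D) ∧ (b ∈ P.od B → v ∈ P.od D)) →
        ((a' ∈ P.ev A → u' ∈ P.ev C) ∧ (a' ∈ P.od A → u' ∈ P.od C)) →
        P.tr _ (P.ext C D u v * P.ext C D u' v') = s • (P.tr C (u * u') * P.tr D (v * v'))) := by
  rcases hb with hb | hb
  · refine ⟨1, .inl rfl, fun C D u v u' v' h _ => ?_⟩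
    rw [one_smul]
    exact tr_ext_mul_ext_ev _ _ _ _ (h.1 hb)
  · rcases ha' with ha' | ha'
    · refine ⟨1, .inl rfl, fun C D u v u' v' _ h => ?_⟩
      rw [one_smul]
      have h1 : P.pull (snd C D) v * P.pull (fst C D) u' =
          P.pull (fst C D) u' * P.pull (snd C D) v :=
        (P.ev_comm _ _ _ (P.pull_ev _ _ (h.1 ha'))).symm
      have h2 : P.ext C D u v * P.ext C D u' v' =
          P.pull (fst C D) u * (P.pull (snd C D) v * P.pull (fst C D) u') *
            P.pull (snd C D) v' := by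
        unfold SPre.ext; noncomm_ring
      rw [h2, h1, ← P.tr_prod, map_mul (P.pull _), map_mul (P.pull _)]
      congr 1
      noncomm_ring
    · refine ⟨-1, .inr rfl, fun C D u v u' v' h h' => ?_⟩
      have h1 : P.pull (snd C D) v * P.pull (fst C D) u' =
          -(P.pull (fst C D) u' * P.pull (snd C D) v) :=
        P.od_anti _ _ _ (P.pull_od _ _ (h.2 hb)) (P.pull_od _ _ (h'.2 ha'))
      have h2 : P.ext C D u v * P.ext C D u' v' =
          P.pull (fst C D) u * (P.pull (snd C D) v * P.pull (fst C D) u') *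
            P.pull (snd C D) v' := by
        unfold SPre.ext; noncomm_ring
      rw [h2, h1, neg_one_zsmul, ← P.tr_prod, map_mul (P.pull _), map_mul (P.pull _), ← map_neg]
      congr 1
      noncomm_ring

/-- `f × g` -/
noncomputable def prodMap {A B C D : SmProjVar k} (f : A.toOver ⟶ C.toOver)
    (g : B.toOver ⟶ D.toOver) : (A.prod B).toOver ⟶ (C.prod D).toOver :=
  lift (fst A B ≫ f) (snd A B ≫ g)

lemma pull_prodMap_ext {A B C D : SmProjVar k} (f : A.toOver ⟶ C.toOver)
    (g : B.toOver ⟶ D.toOver) (c : P.H C) (d : P.H D) :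
    P.pull (prodMap f g) (P.ext C D c d) = P.ext A B (P.pull f c) (P.pull g d) := by
  unfold SPre.ext prodMap
  rw [map_mul (P.pull _), pull_pull, pull_pull, lift_fst, lift_snd, pull_pull, pull_pull]

lemma pushF_prodMap_ext {A B C D : SmProjVar k} (f : A.toOver ⟶ C.toOver)
    (g : B.toOver ⟶ D.toOver) (a : P.H A) (b : P.H B) :
    P.pushF (prodMap f g) (P.ext A B a b) = P.ext C D (P.pushF f a) (P.pushF g b) := by
  obtain ⟨b₀, hb₀, b₁, hb₁, rfl⟩ := P.exists_decomp B b
  have key : ∀ b, P.Hom B b → P.pushF (prodMap f g) (P.ext A B a b) =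
      P.ext C D (P.pushF f a) (P.pushF g b) := by
    intro b hb
    refine eq_of_tr_ext fun c d hc hd => ?_
    rw [tr_pushF, pull_prodMap_ext]
    obtain ⟨s, -, hs⟩ := tr_ext_mul A B a (P.pull f c) b (P.pull g d) hb (Hom.pull P f hc)
    have hev : P.pull f c ∈ P.ev A → P.pull f c ≠ 0 → c ∈ P.ev C := by
      intro h h0
      rcases hc with hc | hc
      · exact hc
      · exact absurd (by simpa using (P.ev_inf_od A).le_bot ⟨h, P.pull_od f c hc⟩) h0
    have hod : P.pull f c ∈ P.od A → P.pull f c ≠ 0 → c ∈ P.od C := by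
      intro h h0
      rcases hc with hc | hc
      · exact absurd (by simpa using (P.ev_inf_od A).le_bot ⟨P.pull_ev f c hc, h⟩) h0
      · exact hc
    by_cases h0 : P.pull f c = 0
    · have h1 : P.tr C (P.pushF f a * c) = 0 := by
        rw [tr_pushF, h0, mul_zero, map_zero]
      rw [h0, SPre.ext, SPre.ext, map_zero (P.pull _), zero_mul, mul_zero, map_zero]
      symm
      have h2 := P.tr_ext_mul_ext C D (P.pushF f a) c (P.pushF g b) d hc (by
        rcases hb with hb | hb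
        · exact .inl (pushF_ev g hb)
        · exact .inr (pushF_od g hb))
      rw [h1, zero_mul, neg_zero] at h2
      exact h2.elim id id
    · rw [hs A B a b _ _ ⟨id, id⟩ ⟨id, id⟩, hs C D (P.pushF f a) (P.pushF g b) c d
        ⟨fun h => pushF_ev g h, fun h => pushF_od g h⟩ ⟨fun h => hev h h0, fun h => hod h h0⟩,
        tr_pushF, tr_pushF]
  have hadd : ∀ (E F : SmProjVar k) (x : P.H E) (y z : P.H F),
      P.ext E F x (y + z) = P.ext E F x y + P.ext E F x z := by
    intro E F x y z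
    unfold SPre.ext
    rw [map_add (P.pull _), mul_add]
  rw [hadd, map_add, key _ (.inl hb₀), key _ (.inr hb₁), map_add, hadd]

/-! ### words are closed under external products -/

lemma closure_hom {L : ∀ T : SmProjVar k, Set (P.H T)} (hL : IsLetters P L) {T : SmProjVar k}
    {w : P.H T} (hw : w ∈ Submonoid.closure (L T)) : P.Hom T w := by
  induction hw using Submonoid.closure_induction with
  | mem y hy => exact hL.hom T y hy
  | one => exact .inl (P.alg_le_ev T (P.one_mem T))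
  | mul x y _ _ hx hy => exact hx.mul P hy

lemma closure_pull {L : ∀ T : SmProjVar k, Set (P.H T)} (hL : IsLetters P L)
    {T Z : SmProjVar k} (f : T.toOver ⟶ Z.toOver)
    {w : P.H Z} (hw : w ∈ Submonoid.closure (L Z)) :
    P.pull f w ∈ Submonoid.closure (L T) := by
  induction hw using Submonoid.closure_induction with
  | mem y hy => exact Submonoid.subset_closure (hL.pull f y hy)
  | one => rw [map_one]; exact Submonoid.one_mem _
  | mul x y _ _ hx hy => rw [map_mul]; exact Submonoid.mul_mem _ hx hy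

lemma rgen_ext {L : ∀ T : SmProjVar k, Set (P.H T)} (hL : IsLetters P L) {X Y Z : SmProjVar k}
    {y : P.H Y} {z : P.H Z} (hy : y ∈ rgen P L X Y) (hz : z ∈ rgen P L X Z) :
    P.ext Y Z y z ∈ rgen P L X (Y.prod Z) ∨ -P.ext Y Z y z ∈ rgen P L X (Y.prod Z) := by
  obtain ⟨X₁, T₁, p₁, q₁, c₁, w₁, x₁, hX₁, hc₁, hw₁, hx₁, rfl⟩ := hy
  obtain ⟨X₂, T₂, p₂, q₂, c₂, w₂, x₂, hX₂, hc₂, hw₂, hx₂, rfl⟩ := hz
  rw [← pushF_prodMap_ext]
  have hxx : ∀ x₁', (x₁' = x₁ ∨ x₁' = -x₁) → P.pushF (prodMap q₁ q₂)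
      (P.pull (fst T₁ T₂) c₁ * P.pull (snd T₁ T₂) c₂ *
        (P.pull (fst T₁ T₂) w₁ * P.pull (snd T₁ T₂) w₂) *
        P.pull (prodMap p₁ p₂) (P.ext X₁ X₂ x₁' x₂)) ∈ rgen P L X (Y.prod Z) := by
    intro x₁' hx
    refine ⟨X₁.prod X₂, T₁.prod T₂, prodMap p₁ p₂, prodMap q₁ q₂, _, _, _, hX₁.prod hX₂,
      P.mul_mem _ _ _ (P.pull_mem _ _ hc₁) (P.pull_mem _ _ hc₂),
      Submonoid.mul_mem _ (closure_pull hL _ hw₁) (closure_pull hL _ hw₂), ?_, rfl⟩
    have hx₁' : P.Hom X₁ x₁' := by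
      rcases hx with rfl | rfl
      · exact hx₁
      · exact hx₁.imp (Submodule.neg_mem _) (Submodule.neg_mem _)
    exact (Hom.pull P _ hx₁').mul P (Hom.pull P _ hx₂)
  have h1 := P.comm_or (T₁.prod T₂) _ _ (Hom.pull P (snd T₁ T₂) (closure_hom hL hw₂))
    (Hom.pull P (fst T₁ T₂) (Hom.pull P p₁ hx₁))
  have h2 : P.ext T₁ T₂ (c₁ * w₁ * P.pull p₁ x₁) (c₂ * w₂ * P.pull p₂ x₂) =
      P.pull (fst T₁ T₂) c₁ * P.pull (snd T₁ T₂) c₂ * P.pull (fst T₁ T₂) w₁ *
        (P.pull (fst T₁ T₂) (P.pull p₁ x₁) * P.pull (snd T₁ T₂) w₂) *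
          P.pull (snd T₁ T₂) (P.pull p₂ x₂) := by
    have h3 : ∀ a, a * P.pull (snd T₁ T₂) c₂ = P.pull (snd T₁ T₂) c₂ * a := fun a =>
      (P.ev_comm _ _ _ (P.pull_ev _ _ (P.alg_le_ev _ hc₂))).symm
    unfold SPre.ext
    rw [map_mul (P.pull (fst T₁ T₂)), map_mul (P.pull (fst T₁ T₂)), map_mul (P.pull (snd T₁ T₂)),
      map_mul (P.pull (snd T₁ T₂))]
    have h4 := h3 (P.pull (fst T₁ T₂) w₁ * P.pull (fst T₁ T₂) (P.pull p₁ x₁))
    calc _ = P.pull (fst T₁ T₂) c₁ * ((P.pull (fst T₁ T₂) w₁ *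
          P.pull (fst T₁ T₂) (P.pull p₁ x₁)) * P.pull (snd T₁ T₂) c₂) *
          P.pull (snd T₁ T₂) w₂ * P.pull (snd T₁ T₂) (P.pull p₂ x₂) := by noncomm_ring
      _ = _ := by rw [h4]; noncomm_ring
  have h5 : ∀ x₁', P.pull (fst T₁ T₂) c₁ * P.pull (snd T₁ T₂) c₂ *
        (P.pull (fst T₁ T₂) w₁ * P.pull (snd T₁ T₂) w₂) *
        P.pull (prodMap p₁ p₂) (P.ext X₁ X₂ x₁' x₂) =
      P.pull (fst T₁ T₂) c₁ * P.pull (snd T₁ T₂) c₂ * P.pull (fst T₁ T₂) w₁ *
        (P.pull (snd T₁ T₂) w₂ * P.pull (fst T₁ T₂) (P.pull p₁ x₁')) *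
          P.pull (snd T₁ T₂) (P.pull p₂ x₂) := by
    intro x₁'
    rw [pull_prodMap_ext]
    unfold SPre.ext
    noncomm_ring
  rcases h1 with h1 | h1
  · left
    rw [h2, ← h1, ← h5]
    exact hxx x₁ (.inl rfl)
  · right
    rw [← map_neg, h2]
    have h6 : -(P.pull (fst T₁ T₂) c₁ * P.pull (snd T₁ T₂) c₂ * P.pull (fst T₁ T₂) w₁ *
        (P.pull (fst T₁ T₂) (P.pull p₁ x₁) * P.pull (snd T₁ T₂) w₂) *
          P.pull (snd T₁ T₂) (P.pull p₂ x₂)) =
        P.pull (fst T₁ T₂) c₁ * P.pull (snd T₁ T₂) c₂ * P.pull (fst T₁ T₂) w₁ *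
        (P.pull (snd T₁ T₂) w₂ * P.pull (fst T₁ T₂) (P.pull p₁ x₁)) *
          P.pull (snd T₁ T₂) (P.pull p₂ x₂) := by
      rw [h1]; noncomm_ring
    rw [h6, ← h5]
    exact hxx x₁ (.inl rfl)

lemma span_rgen_prod {L : ∀ T : SmProjVar k, Set (P.H T)} (hL : IsLetters P L)
    {X Y Z : SmProjVar k} (hY : Submodule.span Ω (rgen P L X Y) = ⊤)
    (hZ : Submodule.span Ω (rgen P L X Z) = ⊤) :
    Submodule.span Ω (rgen P L X (Y.prod Z)) = ⊤ := by
  rw [eq_top_iff, ← P.span_ext_sets Y Z _ _ hY hZ, Submodule.span_le]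
  rintro _ ⟨y, hy, z, hz, rfl⟩
  rcases rgen_ext hL hy hz with h | h
  · exact Submodule.subset_span h
  · have := Submodule.neg_mem _ (Submodule.subset_span (R := Ω) h)
    rwa [neg_neg] at this

lemma span_rgen_self (L : ∀ T : SmProjVar k, Set (P.H T)) (X : SmProjVar k) :
    Submodule.span Ω (rgen P L X X) = ⊤ := by
  rw [eq_top_iff, ← hom_span X]
  refine Submodule.span_mono fun x hx => ?_
  refine ⟨X, X, 𝟙 _, 𝟙 _, 1, 1, x, PowLike.refl X, P.one_mem X, Submonoid.one_mem _, hx, ?_⟩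
  rw [pushF_id, P.pull_id, one_mul, one_mul]
  rfl

lemma span_rgen_pow {L : ∀ T : SmProjVar k, Set (P.H T)} (hL : IsLetters P L)
    {X Y : SmProjVar k} (hY : Submodule.span Ω (rgen P L X Y) = ⊤) (n : ℕ) :
    Submodule.span Ω (rgen P L X (Y.selfProd n)) = ⊤ := by
  induction n with
  | zero => exact hY
  | succ n ih => exact span_rgen_prod hL ih hY

/-- **D** for varieties spanned relative to `X` by words -/
theorem D_of_span {L : ∀ T : SmProjVar k, Set (P.H T)} (hL : IsLetters P L) {X Z : SmProjVar k}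
    (hX : P.DP X) (hZ : Submodule.span Ω (rgen P L X Z) = ⊤) : P.D Z := by
  intro r hr
  refine P.nondeg Z r fun y => ?_
  have hy : y ∈ Submodule.span Ω (rgen P L X Z) := by rw [hZ]; trivial
  induction hy using Submodule.span_induction with
  | mem y hy =>
    obtain ⟨X', T, p, q, c, w, x, hX', hc, hw, hx, rfl⟩ := hy
    rw [tr_mul_pushF]
    have h1 : P.rad T (P.pull q r * c) := rad_mul (rad_pull q hr) hc
    have h2 := hL.zero X' (hX'.dp hX) T w hw _
      (pushF_rad (lift p (𝟙 T.toOver)) h1)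
    have h3 := congrArg (fun y => P.tr X' (y * x)) h2
    simp only [zero_mul, map_zero] at h3
    rw [contr_apply, tr_pushF, mul_assoc, tr_pushF, map_mul (P.pull _), pull_pull, pull_pull,
      lift_fst, lift_snd, P.pull_id] at h3
    rw [← h3]
    congr 1
    change _ = P.pull q r * c * (w * P.pull p x)
    noncomm_ring
  | zero => rw [mul_zero, map_zero]
  | add x y _ _ hx hy => rw [mul_add, map_add, hx, hy, add_zero]
  | smul a x _ hx => rw [mul_smul_comm, map_smul, hx, smul_zero]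

/-- **D** for all powers of `X × Y`, if `Y` is spanned relative to `X` by words -/
theorem DP_of_span {L : ∀ T : SmProjVar k, Set (P.H T)} (hL : IsLetters P L) {X Y : SmProjVar k}
    (hX : P.DP X) (hY : Submodule.span Ω (rgen P L X Y) = ⊤) : P.DP (X.prod Y) := fun n =>
  D_of_span hL hX (span_rgen_pow hL (span_rgen_prod hL (span_rgen_self L X) hY) n)

end Pool.Agent.Helper11.Iso
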