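import Mathlib
import Pool.Agent.Helper11.Iso.Defs
import Pool.Agent.Helper11.Iso.Span
import Pool.Agent.Helper10.Fam

/-!
# Pieces of cohomology with an algebraic projector: definitions
-/

universe u v w t

open CategoryTheory

namespace Pool.Agent.Helper11.Iso

open Pool.Agent.Helper10 SmProjVar SPre Pool.Agent.Helper10.GIT

variable {k : Type u} [Field k] {K : Type t} [Field K] {Ω : Type v} [Field Ω] [Algebra K Ω]

/-- A piece of the cohomology of `V`: a family `e` of classes, all even or all odd, whose Gram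
matrix for the cup product pairing is invertible with inverse `B`, such that the class
`∑ B_ab e_a × e_b` (the projector onto the span of `e`) is algebraic. -/
structure Piece (P : SPre.{u, v, w, t} k K Ω) (V : SmProjVar k) (n : ℕ) (e : Fin n → P.H V)
    (B : Matrix (Fin n) (Fin n) Ω) : Prop where
  parity : (∀ b, e b ∈ P.ev V) ∨ ∀ b, e b ∈ P.od V
  gram : (Matrix.of fun a b => P.tr V (e a * e b)) * B = 1
  alg : ∑ a, ∑ b, B a b • P.ext V V (e a) (e b) ∈ P.alg (V.prod V)

/-- the span of the tensors obtained by pairing numerically trivial classes on `X × Y` with words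
in the letters `x t b` on `Y` (and arbitrary classes on `X`) -/
def tens (P : SPre.{u, v, w, t} k K Ω) (X Y : SmProjVar k) {m : ℕ} {n : Fin m → ℕ}
    (x : ∀ t, Fin (n t) → P.H Y) : Submodule Ω (Idx n → Ω) :=
  Submodule.span Ω (P.wordSet X Y x)

/-- the operator `H(X) → H(Y)` defined by a class on `X × Y` -/
noncomputable def op {P : SPre.{u, v, w, t} k K Ω} {X Y : SmProjVar k} (c : P.H (X.prod Y)) :
    P.H X →ₗ[Ω] P.H Y where
  toFun x := P.pushF (snd X Y) (P.pull (fst X Y) x * c)
  map_add' x y := by rw [map_add, add_mul, map_add]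
  map_smul' a x := by rw [map_smul, smul_mul_assoc, map_smul, RingHom.id_apply]

lemma op_apply {P : SPre.{u, v, w, t} k K Ω} {X Y : SmProjVar k} (c : P.H (X.prod Y))
    (x : P.H X) : op c x = P.pushF (snd X Y) (P.pull (fst X Y) x * c) := rfl

/-- `Y` with the morphisms `f t : Y → V t` is (weakly) the product of the varieties `V t` -/
def IsProdOf {m : ℕ} {V : Fin m → SmProjVar k} {Y : SmProjVar k}
    (f : ∀ t, Y.toOver ⟶ (V t).toOver) : Prop :=
  ∀ (T : SmProjVar k) (g : ∀ t, T.toOver ⟶ (V t).toOver),
    ∃ φ : T.toOver ⟶ Y.toOver, ∀ t, φ ≫ f t = g t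

end Pool.Agent.Helper11.Iso
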