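import Mathlib
import Pool.Agent.Helper11.Iso.Piece

/-!
# The projector onto the part of the cohomology which comes from given varieties is algebraic
-/

universe u v w t

open CategoryTheory

namespace Pool.Agent.Helper11.Iso

open Pool.Agent.Helper10 SmProjVar SPre

variable {k : Type u} [Field k] {K : Type t} [Field K] {Ω : Type v} [Field Ω] [Algebra K Ω]
  {P : SPre.{u, v, w, t} k K Ω}

/-! ### push-forward and pull-back -/

lemma pull_id_apply {A : SmProjVar k} (a : P.H A) : P.pull (𝟙 A.toOver) a = a := by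
  rw [P.pull_id]; rfl

lemma pushF_snd_ext {A B : SmProjVar k} (a : P.H A) (b : P.H B) :
    P.pushF (snd A B) (P.ext A B a b) = P.tr A a • b := by
  refine eq_of_tr fun z => ?_
  rw [tr_pushF, SPre.ext, mul_assoc, ← map_mul (P.pull _), P.tr_prod, smul_mul_assoc, map_smul,
    smul_eq_mul]

lemma pushF_fst_ext {A B : SmProjVar k} (a : P.H A) (b : P.H B) :
    P.pushF (fst A B) (P.ext A B a b) = P.tr B b • a := by
  have h := contr_ext A B (1 : P.H B) a b
  rw [contr_apply, map_one, mul_one, mul_one] at h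
  exact h

lemma ext_induction {A B : SmProjVar k} {p : P.H (A.prod B) → Prop}
    (hext : ∀ a b, P.Hom A a → P.Hom B b → p (P.ext A B a b)) (hzero : p 0)
    (hadd : ∀ x y, p x → p y → p (x + y)) (hsmul : ∀ (a : Ω) x, p x → p (a • x))
    (x : P.H (A.prod B)) : p x := by
  have hx : x ∈ Submodule.span Ω {z : P.H (A.prod B) | ∃ x ∈ {x : P.H A | P.Hom A x},
      ∃ y ∈ {y : P.H B | P.Hom B y}, z = P.ext A B x y} := by
    rw [P.span_ext_sets A B _ _ (hom_span A) (hom_span B)]; trivial
  induction hx using Submodule.span_induction with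
  | mem z hz =>
    obtain ⟨a, ha, b, hb, rfl⟩ := hz
    exact hext a b ha hb
  | zero => exact hzero
  | add x y _ _ hx hy => exact hadd x y hx hy
  | smul a x _ hx => exact hsmul a x hx

/-- base change -/
lemma pull_pushF_snd {A Z Z' : SmProjVar k} (f : Z'.toOver ⟶ Z.toOver) (v : P.H (A.prod Z)) :
    P.pull f (P.pushF (snd A Z) v) = P.pushF (snd A Z') (P.pull (prodMap (𝟙 A.toOver) f) v) := by
  induction v using ext_induction with
  | hext a b _ _ =>
    rw [pushF_snd_ext, pull_prodMap_ext, pushF_snd_ext, map_smul, pull_id_apply]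
  | hzero => simp only [map_zero]
  | hadd x y hx hy => simp only [map_add, hx, hy]
  | hsmul a x hx => simp only [map_smul, hx]

/-- base change -/
lemma pushF_prodMap_pull_fst {A V : SmProjVar k} (u : P.H (A.prod V)) :
    P.pushF (prodMap (𝟙 A.toOver) (snd V V)) (P.pull (prodMap (𝟙 A.toOver) (fst V V)) u) =
      P.pull (fst A V) (P.pushF (fst A V) u) := by
  induction u using ext_induction with
  | hext a v _ _ =>
    have h1 : P.pull (fst V V) v = P.ext V V v 1 := by
      rw [SPre.ext, map_one, mul_one]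
    have h2 : P.pull (fst A V) a = P.ext A V a 1 := by
      rw [SPre.ext, map_one, mul_one]
    have h3 : P.ext A V a (P.tr V v • 1) = P.tr V v • P.ext A V a 1 := by
      rw [SPre.ext, SPre.ext, map_smul, mul_smul_comm]
    rw [pull_prodMap_ext, pushF_prodMap_ext, pushF_id, h1, pushF_snd_ext, pushF_fst_ext, map_smul,
      h2, pull_id_apply, h3]
  | hzero => simp only [map_zero]
  | hadd x y hx hy => simp only [map_add, hx, hy]
  | hsmul a x hx => simp only [map_smul, hx]

/-! ### operations on correspondences -/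

variable {A V : SmProjVar k}

/-- the projection `A × (V × V) → A × V` to the first copy of `V` -/
noncomputable def q₁ (A V : SmProjVar k) :
    (A.prod (V.prod V)).toOver ⟶ (A.prod V).toOver := prodMap (𝟙 A.toOver) (fst V V)

/-- the projection `A × (V × V) → A × V` to the second copy of `V` -/
noncomputable def q₂ (A V : SmProjVar k) :
    (A.prod (V.prod V)).toOver ⟶ (A.prod V).toOver := prodMap (𝟙 A.toOver) (snd V V)

lemma q₁_fst : q₁ A V ≫ fst A V = fst A (V.prod V) := by
  unfold q₁ prodMap; rw [lift_fst, Category.comp_id]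

lemma q₁_snd : q₁ A V ≫ snd A V = snd A (V.prod V) ≫ fst V V := by
  unfold q₁ prodMap; rw [lift_snd]

lemma q₂_fst : q₂ A V ≫ fst A V = fst A (V.prod V) := by
  unfold q₂ prodMap; rw [lift_fst, Category.comp_id]

lemma q₂_snd : q₂ A V ≫ snd A V = snd A (V.prod V) ≫ snd V V := by
  unfold q₂ prodMap; rw [lift_snd]

/-- the class on `V × V` of the correspondence `κ' ∘ κᵗ` -/
noncomputable def star (κ κ' : P.H (A.prod V)) : P.H (V.prod V) :=
  P.pushF (snd A (V.prod V)) (P.pull (q₁ A V) κ * P.pull (q₂ A V) κ')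

/-- the class on `A × V` of the correspondence `c ∘ κ` -/
noncomputable def comp (κ : P.H (A.prod V)) (c : P.H (V.prod V)) : P.H (A.prod V) :=
  P.pushF (q₂ A V) (P.pull (q₁ A V) κ * P.pull (snd A (V.prod V)) c)

/-- the class of the diagonal -/
noncomputable def delta (P : SPre.{u, v, w, t} k K Ω) (V : SmProjVar k) : P.H (V.prod V) :=
  P.pushF (lift (𝟙 V.toOver) (𝟙 V.toOver)) 1

lemma star_mem {κ κ' : P.H (A.prod V)} (h : κ ∈ P.alg _) (h' : κ' ∈ P.alg _) :
    star κ κ' ∈ P.alg (V.prod V) :=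
  pushF_mem _ (P.mul_mem _ _ _ (P.pull_mem _ _ h) (P.pull_mem _ _ h'))

lemma comp_mem {κ : P.H (A.prod V)} {c : P.H (V.prod V)} (h : κ ∈ P.alg _) (h' : c ∈ P.alg _) :
    comp κ c ∈ P.alg (A.prod V) :=
  pushF_mem _ (P.mul_mem _ _ _ (P.pull_mem _ _ h) (P.pull_mem _ _ h'))

lemma delta_mem (V : SmProjVar k) : delta P V ∈ P.alg (V.prod V) := pushF_mem _ (P.one_mem V)

lemma tr_comp {κ κ' : P.H (A.prod V)} {c : P.H (V.prod V)} (hc : c ∈ P.ev _) :
    P.tr _ (comp κ c * κ') = P.tr _ (star κ κ' * c) := by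
  unfold comp star
  rw [tr_pushF, tr_pushF, mul_assoc, mul_assoc, P.ev_comm _ _ _ (P.pull_ev _ _ hc)]

lemma tr_star_delta (κ κ' : P.H (A.prod V)) :
    P.tr _ (star κ κ' * delta P V) = P.tr _ (κ * κ') := by
  unfold delta star
  rw [tr_mul_pushF, mul_one, pull_pushF_snd, map_mul (P.pull _), pull_pull, pull_pull]
  have h1 : prodMap (𝟙 A.toOver) (lift (𝟙 V.toOver) (𝟙 V.toOver)) ≫ q₁ A V =
      𝟙 (A.prod V).toOver := by
    apply hom_ext
    · rw [Category.assoc, q₁_fst, prodMap, lift_fst, Category.comp_id, Category.id_comp]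
    · rw [Category.assoc, q₁_snd, prodMap, lift_snd_assoc, Category.assoc, lift_fst,
        Category.comp_id, Category.id_comp]
  have h2 : prodMap (𝟙 A.toOver) (lift (𝟙 V.toOver) (𝟙 V.toOver)) ≫ q₂ A V =
      𝟙 (A.prod V).toOver := by
    apply hom_ext
    · rw [Category.assoc, q₂_fst, prodMap, lift_fst, Category.comp_id, Category.id_comp]
    · rw [Category.assoc, q₂_snd, prodMap, lift_snd_assoc, Category.assoc, lift_snd,
        Category.comp_id, Category.id_comp]
  rw [h1, h2, P.pull_id]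
  have h3 := P.tr_pushF (snd A V) (κ * κ') (1 : P.H V)
  rw [mul_one, map_one, mul_one] at h3
  exact h3

lemma op_comp (κ : P.H (A.prod V)) (c : P.H (V.prod V)) (x : P.H A) :
    op (comp κ c) x = op c (op κ x) := by
  rw [op_apply, op_apply, op_apply, comp, pull_pushF_snd, ← pushF_pull_mul, ← pushF_mul_pull,
    ← pushF_comp, ← pushF_comp, q₂_snd, pull_pull, q₂_fst]
  congr 1
  change _ = P.pull (q₁ A V) _ * _
  rw [map_mul (P.pull (q₁ A V)), pull_pull, q₁_fst, mul_assoc]

/-- the transpose of the operator `op κ` -/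
noncomputable def opT (κ : P.H (A.prod V)) (y : P.H V) : P.H A :=
  P.pushF (fst A V) (P.pull (snd A V) y * κ)

lemma op_star (κ κ' : P.H (A.prod V)) (y : P.H V) :
    op (star κ κ') y = op κ' (opT κ y) := by
  rw [op_apply, op_apply, opT, star, ← pushF_prodMap_pull_fst, ← pushF_pull_mul,
    ← pushF_mul_pull, ← pushF_comp, ← pushF_comp, pull_pull]
  change P.pushF (snd A (V.prod V) ≫ snd V V) (_ * (_ * _)) =
    P.pushF (q₂ A V ≫ snd A V) (P.pull (q₁ A V) _ * P.pull (q₂ A V) κ')
  rw [q₂_snd, map_mul (P.pull (q₁ A V)), pull_pull, q₁_snd, mul_assoc]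

/-! ### the parity involution and traces -/

lemma isCompl_ev_od (V : SmProjVar k) : IsCompl (P.ev V) (P.od V) :=
  ⟨P.ev_inf_od V, by rw [codisjoint_iff]; exact P.ev_sup_od V⟩

/-- the parity involution -/
noncomputable def par (P : SPre.{u, v, w, t} k K Ω) (V : SmProjVar k) : P.H V →ₗ[Ω] P.H V :=
  (P.ev V).subtype ∘ₗ (P.ev V).projectionOnto (P.od V) (isCompl_ev_od V) -
    (P.od V).subtype ∘ₗ (P.od V).projectionOnto (P.ev V) (isCompl_ev_od V).symm

lemma par_ev {x : P.H V} (hx : x ∈ P.ev V) : par P V x = x := by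
  have h1 := Submodule.projectionOnto_apply_left (isCompl_ev_od (P := P) V) ⟨x, hx⟩
  have h2 := Submodule.projectionOnto_apply_right (isCompl_ev_od (P := P) V).symm ⟨x, hx⟩
  simp only at h1 h2
  rw [par, LinearMap.sub_apply, LinearMap.comp_apply, LinearMap.comp_apply, h1, h2]
  simp

lemma par_od {x : P.H V} (hx : x ∈ P.od V) : par P V x = -x := by
  have h1 := Submodule.projectionOnto_apply_left (isCompl_ev_od (P := P) V).symm ⟨x, hx⟩
  have h2 := Submodule.projectionOnto_apply_right (isCompl_ev_od (P := P) V) ⟨x, hx⟩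
  simp only at h1 h2
  rw [par, LinearMap.sub_apply, LinearMap.comp_apply, LinearMap.comp_apply, h1, h2]
  simp

lemma par_par (x : P.H V) : par P V (par P V x) = x := by
  obtain ⟨a, ha, b, hb, rfl⟩ := P.exists_decomp V x
  rw [map_add, par_ev ha, par_od hb, map_add, map_neg, par_ev ha, par_od hb, neg_neg]

lemma tr_par (a b : P.H V) : P.tr V (a * b) = P.tr V (par P V b * a) := by
  obtain ⟨b₀, hb₀, b₁, hb₁, rfl⟩ := P.exists_decomp V b
  obtain ⟨a₀, ha₀, a₁, ha₁, rfl⟩ := P.exists_decomp V a
  have e1 : P.tr V (a₀ * b₁) = 0 := P.tr_od V _ (P.ev_mul_od V _ _ ha₀ hb₁)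
  have e2 : P.tr V (a₁ * b₀) = 0 := P.tr_od V _ (P.od_mul_ev V _ _ ha₁ hb₀)
  have e3 : P.tr V (b₁ * a₀) = 0 := P.tr_od V _ (P.od_mul_ev V _ _ hb₁ ha₀)
  have e4 : P.tr V (b₀ * a₁) = 0 := P.tr_od V _ (P.ev_mul_od V _ _ hb₀ ha₁)
  rw [map_add, par_ev hb₀, par_od hb₁]
  simp only [add_mul, mul_add, map_add, neg_mul, map_neg]
  rw [e1, e2, e3, e4, P.ev_comm V _ _ ha₀, P.od_anti V _ _ ha₁ hb₁, map_neg, neg_zero]

/-- an even correspondence commutes with the parity involution -/
lemma op_par {B : SmProjVar k} {c : P.H (A.prod B)} (hc : c ∈ P.ev _) (x : P.H A) :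
    op c (par P A x) = par P B (op c x) := by
  obtain ⟨a, ha, b, hb, rfl⟩ := P.exists_decomp A x
  have h1 : op c a ∈ P.ev B := pushF_ev _ (P.ev_mul_ev _ _ _ (P.pull_ev _ _ ha) hc)
  have h2 : op c b ∈ P.od B := pushF_od _ (P.od_mul_ev _ _ _ (P.pull_od _ _ hb) hc)
  rw [map_add, map_add, map_add, map_add, par_ev ha, par_od hb, map_neg, par_ev h1, par_od h2]

lemma op_add {B : SmProjVar k} (c d : P.H (A.prod B)) : op (c + d) = op c + op d := by
  ext x
  rw [LinearMap.add_apply, op_apply, op_apply, op_apply, mul_add, map_add]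

lemma op_smul {B : SmProjVar k} (a : Ω) (c : P.H (A.prod B)) : op (a • c) = a • op c := by
  ext x
  rw [LinearMap.smul_apply, op_apply, op_apply, mul_smul_comm, map_smul]

lemma op_zero {B : SmProjVar k} : op (0 : P.H (A.prod B)) = 0 := by
  ext x
  rw [LinearMap.zero_apply, op_apply, mul_zero, map_zero]

lemma op_ext {B : SmProjVar k} (a : P.H A) (b : P.H B) (x : P.H A) :
    op (P.ext A B a b) x = P.tr A (x * a) • b := by
  rw [op_apply, ← pushF_snd_ext, SPre.ext, SPre.ext, map_mul (P.pull _), mul_assoc]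

/-- the trace formula -/
lemma trace_op (c : P.H (V.prod V)) : LinearMap.trace Ω (P.H V) (op c ∘ₗ par P V) =
    P.tr V (P.pull (lift (𝟙 V.toOver) (𝟙 V.toOver)) c) := by
  induction c using ext_induction with
  | hext a b _ _ =>
    have h1 : op (P.ext V V a b) ∘ₗ par P V =
        ((P.tr V) ∘ₗ (LinearMap.mulRight Ω a) ∘ₗ par P V).smulRight b := by
      ext x
      rw [LinearMap.comp_apply, op_ext]
      rfl
    rw [h1, LinearMap.trace_smulRight, SPre.ext, map_mul (P.pull _), pull_pull, pull_pull,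
      lift_fst, lift_snd, P.pull_id]
    exact (tr_par a b).symm
  | hzero => rw [op_zero, LinearMap.zero_comp, map_zero, map_zero, map_zero]
  | hadd x y hx hy => rw [op_add, LinearMap.add_comp, map_add, map_add, map_add, hx, hy]
  | hsmul a x hx => rw [op_smul, LinearMap.smul_comp, map_smul, map_smul, map_smul, hx]

/-- a correspondence with square zero has trace zero -/
lemma tr_eq_zero_of_sq {c : P.H (V.prod V)} (hc : c ∈ P.ev _) (h : ∀ x, op c (op c x) = 0) :
    P.tr _ (c * delta P V) = 0 := by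
  have h1 : (op c ∘ₗ par P V) ^ 2 = 0 := by
    ext x
    rw [sq, Module.End.mul_apply, LinearMap.comp_apply, LinearMap.comp_apply, ← op_par hc, par_par,
      h, LinearMap.zero_apply]
  have h2 := (LinearMap.isNilpotent_trace_of_isNilpotent (⟨2, h1⟩ : IsNilpotent _)).eq_zero
  rw [trace_op] at h2
  rw [delta, tr_mul_pushF, mul_one, h2]

/-! ### the projector -/

/-- a linear form which vanishes on the radical of a bilinear form is represented -/
lemma exists_rep_of_rad {C : Type*} [AddCommGroup C] [Module Ω C] [Module.Finite Ω C]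
    (φ : C →ₗ[Ω] Module.Dual Ω C) (l : Module.Dual Ω C)
    (h : ∀ c, (∀ c', φ c c' = 0) → l c = 0) : ∃ p, ∀ c, φ c p = l c := by
  have h1 : l ∈ (LinearMap.ker φ).dualAnnihilator := by
    rw [Submodule.mem_dualAnnihilator]
    intro c hc
    refine h c fun c' => ?_
    rw [LinearMap.mem_ker.mp hc, LinearMap.zero_apply]
  rw [← LinearMap.range_dualMap_eq_dualAnnihilator_ker] at h1
  obtain ⟨ψ, rfl⟩ := h1
  obtain ⟨p, rfl⟩ := (Module.evalEquiv Ω C).surjective ψ
  exact ⟨p, fun c => rfl⟩

/-- the swap of the factors -/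
noncomputable def swap (V : SmProjVar k) : (V.prod V).toOver ⟶ (V.prod V).toOver :=
  lift (snd V V) (fst V V)

lemma swap_swap : swap V ≫ swap V = 𝟙 (V.prod V).toOver := by
  unfold swap
  apply hom_ext
  · rw [Category.assoc, lift_fst, lift_snd, Category.id_comp]
  · rw [Category.assoc, lift_snd, lift_fst, Category.id_comp]

lemma tr_swap (x : P.H (V.prod V)) : P.tr _ (P.pull (swap V) x) = P.tr _ x := by
  induction x using ext_induction with
  | hext a b _ _ =>
    rw [SPre.ext, map_mul (P.pull _), pull_pull, pull_pull, swap, lift_fst, lift_snd,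
      P.tr_snd_fst, P.tr_prod]
  | hzero => rw [map_zero]
  | hadd x y hx hy => rw [map_add, map_add, map_add, hx, hy]
  | hsmul a x hx => rw [map_smul, map_smul, map_smul, hx]

lemma pull_swap_delta : P.pull (swap V) (delta P V) = delta P V := by
  refine eq_of_tr fun x => ?_
  have h1 : ∀ y, P.tr _ (P.pull (swap V) (delta P V) * P.pull (swap V) y) =
      P.tr _ (delta P V * P.pull (swap V) y) := by
    intro y
    rw [← map_mul (P.pull _), tr_swap, delta, tr_pushF, tr_pushF, one_mul, one_mul, pull_pull]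
    have : lift (𝟙 V.toOver) (𝟙 V.toOver) ≫ swap V = lift (𝟙 V.toOver) (𝟙 V.toOver) := by
      unfold swap
      apply hom_ext
      · rw [Category.assoc, lift_fst, lift_fst, lift_snd]
      · rw [Category.assoc, lift_snd, lift_fst, lift_snd]
    rw [this]
  have h2 := h1 (P.pull (swap V) x)
  rwa [pull_pull, swap_swap, pull_id_apply] at h2

/-- the classes `κ' ∘ κᵗ`, for algebraic correspondences from the varieties `A i` to `V` -/
noncomputable def starSpan (P : SPre.{u, v, w, t} k K Ω) {ι : Type*} (A : ι → SmProjVar k)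
    (V : SmProjVar k) : Submodule Ω (P.H (V.prod V)) :=
  Submodule.span Ω {c | ∃ (i : ι) (κ κ' : P.H ((A i).prod V)), κ ∈ P.alg _ ∧ κ' ∈ P.alg _ ∧
    c = star κ κ'}

/-- the sum of the images of the cohomology of the varieties `A i` under algebraic
correspondences -/
noncomputable def image (P : SPre.{u, v, w, t} k K Ω) {ι : Type*} (A : ι → SmProjVar k)
    (V : SmProjVar k) : Submodule Ω (P.H V) :=
  Submodule.span Ω {y | ∃ (i : ι) (κ : P.H ((A i).prod V)) (x : P.H (A i)), κ ∈ P.alg _ ∧
    y = op κ x}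

lemma starSpan_le {ι : Type*} (A : ι → SmProjVar k) : starSpan P A V ≤ P.alg (V.prod V) := by
  unfold starSpan
  rw [Submodule.span_le]
  rintro _ ⟨i, κ, κ', hκ, hκ', rfl⟩
  exact star_mem hκ hκ'

lemma op_mem_image {ι : Type*} (A : ι → SmProjVar k) {c : P.H (V.prod V)}
    (hc : c ∈ starSpan P A V) (y : P.H V) : op c y ∈ image P A V := by
  unfold starSpan at hc
  induction hc using Submodule.span_induction with
  | mem c hc =>
    obtain ⟨i, κ, κ', hκ, hκ', rfl⟩ := hc
    rw [op_star]
    exact Submodule.subset_span ⟨i, κ', _, hκ', rfl⟩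
  | zero => rw [op_zero]; exact Submodule.zero_mem _
  | add c d _ _ hc hd => rw [op_add]; exact Submodule.add_mem _ hc hd
  | smul a c _ hc => rw [op_smul]; exact Submodule.smul_mem _ _ hc

lemma star_add_left {κ₁ κ₂ κ' : P.H (A.prod V)} :
    star (κ₁ + κ₂) κ' = star κ₁ κ' + star κ₂ κ' := by
  unfold star; rw [map_add, add_mul, map_add]

lemma pull_swap_star (κ κ' : P.H (A.prod V)) (hκ : κ ∈ P.ev _) :
    P.pull (swap V) (star κ κ') = star κ' κ := by
  unfold star
  rw [pull_pushF_snd, map_mul (P.pull _), pull_pull, pull_pull]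
  have h1 : prodMap (𝟙 A.toOver) (swap V) ≫ q₁ A V = q₂ A V := by
    apply hom_ext
    · rw [Category.assoc, q₁_fst, prodMap, lift_fst, Category.comp_id, q₂_fst]
    · rw [Category.assoc, q₁_snd, prodMap, lift_snd_assoc, swap, Category.assoc, lift_fst, q₂_snd]
  have h2 : prodMap (𝟙 A.toOver) (swap V) ≫ q₂ A V = q₁ A V := by
    apply hom_ext
    · rw [Category.assoc, q₂_fst, prodMap, lift_fst, Category.comp_id, q₁_fst]
    · rw [Category.assoc, q₂_snd, prodMap, lift_snd_assoc, swap, Category.assoc, lift_snd, q₁_snd]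
  rw [h1, h2, P.ev_comm _ _ _ (P.pull_ev _ _ hκ)]

lemma pull_swap_mem {ι : Type*} (A : ι → SmProjVar k) {c : P.H (V.prod V)}
    (hc : c ∈ starSpan P A V) : P.pull (swap V) c ∈ starSpan P A V := by
  unfold starSpan at hc
  induction hc using Submodule.span_induction with
  | mem c hc =>
    obtain ⟨i, κ, κ', hκ, hκ', rfl⟩ := hc
    rw [pull_swap_star _ _ (P.alg_le_ev _ hκ)]
    exact Submodule.subset_span ⟨i, κ', κ, hκ', hκ, rfl⟩
  | zero => rw [map_zero]; exact Submodule.zero_mem _
  | add c d _ _ hc hd => rw [map_add]; exact Submodule.add_mem _ hc hd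
  | smul a c _ hc => rw [map_smul]; exact Submodule.smul_mem _ _ hc

/-- **The projector.** If D holds for all the products `A i × V`, the projector of `H(V)` onto the
sum of the images of the `H(A i)` is algebraic. -/
theorem exists_rep {ι : Type*} (A : ι → SmProjVar k) (hD : ∀ i, P.D ((A i).prod V)) :
    ∃ p ∈ starSpan P A V, ∀ c ∈ starSpan P A V, P.tr _ (c * p) = P.tr _ (c * delta P V) := by
  let C := starSpan P A V
  let φ : C →ₗ[Ω] Module.Dual Ω C :=
    LinearMap.mk₂ Ω (fun c c' => P.tr _ ((c : P.H (V.prod V)) * (c' : P.H (V.prod V))))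
      (fun a b c => by rw [Submodule.coe_add, add_mul, map_add])
      (fun a b c => by rw [Submodule.coe_smul, smul_mul_assoc, map_smul])
      (fun a b c => by rw [Submodule.coe_add, mul_add, map_add])
      (fun a b c => by rw [Submodule.coe_smul, mul_smul_comm, map_smul])
  let l : Module.Dual Ω C :=
    { toFun := fun c => P.tr _ ((c : P.H (V.prod V)) * delta P V)
      map_add' := fun a b => by rw [Submodule.coe_add, add_mul, map_add]
      map_smul' := fun a b => by
        rw [Submodule.coe_smul, smul_mul_assoc, map_smul, RingHom.id_apply] }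
  obtain ⟨p, hp⟩ := exists_rep_of_rad φ l (by
    rintro ⟨c, hc⟩ h
    have hcev := P.alg_le_ev _ (starSpan_le A hc)
    refine tr_eq_zero_of_sq hcev ?_
    have h1 : ∀ i, ∀ κ ∈ P.alg ((A i).prod V), comp κ c = 0 := by
      intro i κ hκ
      refine hD i _ ⟨comp_mem hκ (starSpan_le A hc), fun κ' hκ' => ?_⟩
      rw [tr_comp hcev, ← P.ev_comm _ _ _ hcev]
      exact h ⟨_, Submodule.subset_span ⟨i, κ, κ', hκ, hκ', rfl⟩⟩
    have h2 : ∀ y ∈ image P A V, op c y = 0 := by
      intro y hy
      unfold image at hy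
      induction hy using Submodule.span_induction with
      | mem y hy =>
        obtain ⟨i, κ, x, hκ, rfl⟩ := hy
        rw [← op_comp, h1 i κ hκ, op_zero, LinearMap.zero_apply]
      | zero => rw [map_zero]
      | add x y _ _ hx hy => rw [map_add, hx, hy, add_zero]
      | smul a x _ hx => rw [map_smul, hx, smul_zero]
    exact fun x => h2 _ (op_mem_image A hc x))
  exact ⟨p, p.2, fun c hc => hp ⟨c, hc⟩⟩

lemma op_eq_self {ι : Type*} (A : ι → SmProjVar k) (hD : ∀ i, P.D ((A i).prod V))
    {p : P.H (V.prod V)} (hpC : p ∈ P.alg (V.prod V))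
    (hp : ∀ c ∈ starSpan P A V, P.tr _ (c * p) = P.tr _ (c * delta P V)) {y : P.H V}
    (hy : y ∈ image P A V) : op p y = y := by
  have h1 : ∀ i, ∀ κ ∈ P.alg ((A i).prod V), comp κ p = κ := by
    intro i κ hκ
    rw [← sub_eq_zero]
    refine hD i _ ⟨Submodule.sub_mem _ (comp_mem hκ hpC) hκ, fun κ' hκ' => ?_⟩
    rw [sub_mul, map_sub, tr_comp (P.alg_le_ev _ hpC),
      hp _ (Submodule.subset_span ⟨i, κ, κ', hκ, hκ', rfl⟩), tr_star_delta, sub_self]
  unfold image at hy
  induction hy using Submodule.span_induction with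
  | mem y hy =>
    obtain ⟨i, κ, x, hκ, rfl⟩ := hy
    rw [← op_comp, h1 i κ hκ]
  | zero => rw [map_zero]
  | add x y _ _ hx hy => rw [map_add, hx, hy]
  | smul a x _ hx => rw [map_smul, hx]

/-- transposition -/
lemma tr_op_swap {c : P.H (V.prod V)} (hc : c ∈ P.ev _) (x y : P.H V) :
    P.tr V (x * op c y) = P.tr V (op (P.pull (swap V) c) x * y) := by
  rw [op_apply, op_apply, tr_mul_pushF, tr_pushF, ← tr_swap, map_mul (P.pull _),
    map_mul (P.pull _), pull_pull, pull_pull]
  have h1 : swap V ≫ snd V V = fst V V := by unfold swap; rw [lift_snd]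
  have h2 : swap V ≫ fst V V = snd V V := by unfold swap; rw [lift_fst]
  rw [h1, h2, mul_assoc, P.ev_comm _ _ _ (P.pull_ev (swap V) _ hc)]

/-- The orthogonal complement of a subspace. -/
def orth (P : SPre.{u, v, w, t} k K Ω) {V : SmProjVar k} (M : Submodule Ω (P.H V)) :
    Submodule Ω (P.H V) where
  carrier := {y | ∀ m ∈ M, P.tr V (m * y) = 0}
  add_mem' hx hy m hm := by rw [mul_add, map_add, hx m hm, hy m hm, add_zero]
  zero_mem' m _ := by rw [mul_zero, map_zero]
  smul_mem' a x hx m hm := by rw [mul_smul_comm, map_smul, hx m hm, smul_zero]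

lemma mem_orth {M : Submodule Ω (P.H V)} {y : P.H V} :
    y ∈ orth P M ↔ ∀ m ∈ M, P.tr V (m * y) = 0 := Iff.rfl

/-- `tr (κ^t y x)` -/
lemma opT_eq_zero {κ : P.H (A.prod V)} (hκ : κ ∈ P.ev _) {y : P.H V}
    (h : ∀ x, P.tr V (op κ x * y) = 0) : opT κ y = 0 := by
  refine P.nondeg A _ fun x => ?_
  rw [opT, tr_pushF, mul_assoc, tr_par, ← tr_par]
  have h1 : ∀ x, P.tr _ (P.pull (fst A V) x * κ * P.pull (snd A V) y) = 0 := by
    intro x
    rw [← h x, op_apply, tr_pushF]
  have h2 : P.tr _ (P.pull (snd A V) y * (κ * P.pull (fst A V) x)) =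
      P.tr _ (P.pull (fst A V) (par P A x) * κ * P.pull (snd A V) y) := by
    rw [tr_par]
    congr 1
    obtain ⟨a, ha, b, hb, rfl⟩ := P.exists_decomp A x
    have e1 : κ * P.pull (fst A V) a ∈ P.ev _ := P.ev_mul_ev _ _ _ hκ (P.pull_ev _ _ ha)
    have e2 : κ * P.pull (fst A V) b ∈ P.od _ := P.ev_mul_od _ _ _ hκ (P.pull_od _ _ hb)
    rw [map_add (P.pull _), mul_add, map_add, par_ev e1, par_od e2, map_add, par_ev ha, par_od hb,
      map_add (P.pull _), map_neg (P.pull _), add_mul (P.pull _ _), neg_mul,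
      P.ev_comm _ _ _ hκ, P.ev_comm _ _ _ hκ]
  rw [h2, h1]

theorem exists_projector {ι : Type*} (A : ι → SmProjVar k) (hD : ∀ i, P.D ((A i).prod V)) :
    ∃ q ∈ P.alg (V.prod V), (∀ y ∈ image P A V, op q y = 0) ∧
      (∀ y ∈ orth P (image P A V), op q y = y) ∧ (∀ y, op q y ∈ orth P (image P A V)) ∧
      image P A V ⊔ orth P (image P A V) = ⊤ := by
  obtain ⟨p, hpC, hp⟩ := exists_rep A hD
  have hpa := starSpan_le A hpC
  have hpe := P.alg_le_ev _ hpa
  have hδ : ∀ y, op (delta P V) y = y := by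
    intro y
    rw [op_apply, delta, ← pushF_pull_mul, ← pushF_comp, pull_pull, lift_fst, lift_snd,
      pull_id_apply, pushF_id, mul_one]
  have hself : ∀ y ∈ image P A V, op p y = y := fun y hy => op_eq_self A hD hpa hp hy
  have hp' : ∀ c ∈ starSpan P A V,
      P.tr _ (c * P.pull (swap V) p) = P.tr _ (c * delta P V) := by
    intro c hc
    have h1 := hp _ (pull_swap_mem A hc)
    rw [← tr_swap, map_mul (P.pull _), pull_pull, swap_swap, pull_id_apply] at h1
    rw [h1, ← tr_swap, map_mul (P.pull _), pull_pull, swap_swap, pull_id_apply, pull_swap_delta]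
  have hself' : ∀ y ∈ image P A V, op (P.pull (swap V) p) y = y := fun y hy =>
    op_eq_self A hD (P.pull_mem _ _ hpa) hp' hy
  have horth : ∀ y ∈ orth P (image P A V), op p y = 0 := by
    intro y hy
    have key : ∀ c ∈ starSpan P A V, op c y = 0 := by
      intro c hc
      unfold starSpan at hc
      induction hc using Submodule.span_induction with
      | mem c hc =>
        obtain ⟨i, κ, κ', hκ, hκ', rfl⟩ := hc
        rw [op_star, opT_eq_zero (P.alg_le_ev _ hκ)
          (fun x => hy _ (Submodule.subset_span ⟨i, κ, x, hκ, rfl⟩)), map_zero]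
      | zero => rw [op_zero, LinearMap.zero_apply]
      | add c d _ _ hc hd => rw [op_add, LinearMap.add_apply, hc, hd, add_zero]
      | smul a c _ hc => rw [op_smul, LinearMap.smul_apply, hc, smul_zero]
    exact key p hpC
  have hcompl : ∀ y, y - op p y ∈ orth P (image P A V) := by
    intro y m hm
    rw [mul_sub, map_sub, tr_op_swap hpe, hself' m hm, sub_self]
  have hop : ∀ y, op (delta P V - p) y = y - op p y := by
    intro y
    have : op (delta P V - p) = op (delta P V) - op p := by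
      rw [sub_eq_add_neg, op_add, ← neg_one_smul Ω p, op_smul, sub_eq_add_neg]
      ext z
      simp
    rw [this, LinearMap.sub_apply, hδ]
  refine ⟨delta P V - p, Submodule.sub_mem _ (delta_mem V) hpa, fun y hy => ?_, fun y hy => ?_,
    fun y => ?_, ?_⟩
  · rw [hop, hself y hy, sub_self]
  · rw [hop, horth y hy, sub_zero]
  · rw [hop]; exact hcompl y
  · rw [eq_top_iff]
    intro y _
    have h1 : y = op p y + (y - op p y) := by abel
    rw [h1]
    exact Submodule.add_mem_sup (op_mem_image A hpC y) (hcompl y)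

end Pool.Agent.Helper11.Iso
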