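import Mathlib
import Pool.Agent.Helper33.Iso.Descent

/-!
# Galois descent of the canonical isotropic subspace, with semilinear stability
(the proof is the one of helper33 in `Pool.Agent.Helper33.Iso.Descent`)
-/

universe u

open Finset Matrix

namespace Pool.Agent.Helper11.Iso

open Pool.Agent.Helper10.GIT Pool.Agent.Helper11.GIT

variable {m : ℕ} {n : Fin m → ℕ}

/-- the canonical isotropic subspace, stable also under semilinear maps -/
theorem exists_isotropic_of_traceZero' {Ω : Type u} [Field Ω] [CharZero Ω]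
    {P Q : Set (Idx n → Ω)} (hP : ∃ z ∈ P, z ≠ 0) (h : TraceZero P Q)
    (B : Mats n Ω) (hB : ∀ t, (B t).det ≠ 0) (hBs : ∀ t, (B t)ᵀ = B t ∨ (B t)ᵀ = -B t)
    (hQ : Q = act B '' P) :
    ∃ (t : Fin m) (F : Submodule Ω (Fin (n t) → Ω)), F ≠ ⊥ ∧
      (∀ x ∈ F, ∀ y ∈ F, x ⬝ᵥ (B t).mulVec y = 0) ∧
      (∀ (ρ : Mats n Ω) (τ : Ω ≃+* Ω), (∀ t, (ρ t).det ≠ 0) →
        (∀ z ∈ P, act ρ (fun w => τ (z w)) ∈ P) →
        (∀ y ∈ Q, act (contra ρ) (fun w => τ (y w)) ∈ Q) →
        ∀ x ∈ F, (ρ t).mulVec (fun i => τ (x i)) ∈ F) := by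
  classical
  obtain ⟨κ, _, _, h₁, hh₁, hbad₁⟩ := exists_bad2_of (fun _ hk z y w w' hz hy =>
    fis_coord_dcoord h hk z y w w' hz hy)
  obtain ⟨h₂, hh₂, hbad₂⟩ := exists_bad2_algebraicClosure h₁ hh₁ hbad₁
  set K := AlgebraicClosure Ω
  set ι : Ω →+* K := algebraMap Ω K with hι
  have hinj : Function.Injective ι := ι.injective
  have hdet : ∀ (ρ : Mats n Ω) t, ((ρ t).map ι).det = ι (ρ t).det := fun ρ t =>
    (RingHom.map_det ι (ρ t)).symm
  obtain ⟨t, F, hF0, hFiso, hFst⟩ := exists_isotropic (P := ext K P) (Q := ext K Q)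
    (by
      obtain ⟨z, hz, hz0⟩ := hP
      refine ⟨_, ⟨z, hz, rfl⟩, fun h0 => hz0 ?_⟩
      funext w
      exact hinj (by rw [Pi.zero_apply, map_zero]; exact congrFun h0 w))
    hh₂ hbad₂ (fun t => (B t).map ι) (fun t => by
      rw [hdet]
      exact fun h0 => hB t (hinj (by rw [h0, map_zero])))
    (fun t => by
      rcases hBs t with h3 | h3
      · left
        rw [← Matrix.transpose_map, h3]
      · right
        rw [← Matrix.transpose_map, h3]
        ext i j
        simp)
    (by
      rw [hQ]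
      unfold ext
      rw [Set.image_image, Set.image_image]
      refine Set.image_congr fun z _ => ?_
      exact (act_map ι B z).symm)
  -- Galois stability
  have hgal : ∀ τ : K ≃ₐ[Ω] K, ∀ x ∈ F, (fun i => τ (x i)) ∈ F := by
    intro τ x hx
    have h3 := hFst 1 (τ : K ≃+* K) (fun t => by simp) (by
      rintro _ ⟨z, hz, rfl⟩
      rw [act_one]
      refine ⟨z, hz, ?_⟩
      funext w
      exact (τ.commutes (z w)).symm) (by
      rintro _ ⟨z, hz, rfl⟩
      rw [contra_one, act_one]
      refine ⟨z, hz, ?_⟩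
      funext w
      exact (τ.commutes (z w)).symm) x hx
    rw [Pi.one_apply, Matrix.one_mulVec] at h3
    exact h3
  obtain ⟨x₀, hx₀, hx₀F⟩ := exists_rational F hF0 hgal
  refine ⟨t, { carrier := {x | (fun i => ι (x i)) ∈ F}
               add_mem' := ?_
               zero_mem' := ?_
               smul_mem' := ?_ }, ?_, ?_, ?_⟩
  · intro x y hx hy
    have h3 := F.add_mem hx hy
    have h4 : (fun i => ι ((x + y) i)) = (fun i => ι (x i)) + fun i => ι (y i) := by
      funext i
      simp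
    change (fun i => ι ((x + y) i)) ∈ F
    rw [h4]
    exact h3
  · have h4 : (fun i => ι ((0 : Fin (n t) → Ω) i)) = 0 := by
      funext i
      simp
    change (fun i => ι ((0 : Fin (n t) → Ω) i)) ∈ F
    rw [h4]
    exact F.zero_mem
  · intro c x hx
    have h3 := F.smul_mem (ι c) hx
    have h4 : (fun i => ι ((c • x) i)) = ι c • fun i => ι (x i) := by
      funext i
      simp
    change (fun i => ι ((c • x) i)) ∈ F
    rw [h4]
    exact h3
  · rw [Submodule.ne_bot_iff]
    exact ⟨x₀, hx₀F, hx₀⟩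
  · intro x hx y hy
    have h3 := hFiso _ hx _ hy
    apply hinj
    rw [map_zero, ← h3]
    simp only [dotProduct, Matrix.mulVec, map_sum, map_mul, Matrix.map_apply]
  · intro ρ τ hρ hρP hρQ x hx
    let τ' : K ≃+* K := IsAlgClosure.equivOfEquiv (AlgebraicClosure Ω) (AlgebraicClosure Ω) τ
    have hτ : ∀ a, τ' (ι a) = ι (τ a) := fun a =>
      IsAlgClosure.equivOfEquiv_algebraMap (AlgebraicClosure Ω) (AlgebraicClosure Ω) τ a
    have h3 := hFst (fun t => (ρ t).map ι) τ' (fun t => by
      rw [hdet]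
      exact fun h0 => hρ t (hinj (by rw [h0, map_zero]))) (by
      rintro _ ⟨z, hz, rfl⟩
      refine ⟨act ρ (fun w => τ (z w)), hρP z hz, ?_⟩
      have h6 : (fun w => τ' (ι (z w))) = fun w => ι (τ (z w)) := funext fun w => hτ _
      rw [h6]
      exact (act_map ι ρ (fun w => τ (z w))).symm) (by
      rintro _ ⟨z, hz, rfl⟩
      refine ⟨act (contra ρ) (fun w => τ (z w)), hρQ z hz, ?_⟩
      have h5 : contra (fun t => (ρ t).map ι) = fun t => (contra ρ t).map ι := by
        funext t
        unfold contra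
        rw [← map_inv_of_isUnit ι (isUnit_iff_ne_zero.2 (hρ t))]
        rfl
      have h6 : (fun w => τ' (ι (z w))) = fun w => ι (τ (z w)) := funext fun w => hτ _
      rw [h5, h6]
      exact (act_map ι (contra ρ) (fun w => τ (z w))).symm) _ hx
    have h4 : (fun i => ι ((ρ t).mulVec (fun j => τ (x j)) i)) =
        ((ρ t).map ι).mulVec fun i => τ' (ι (x i)) := by
      funext i
      simp only [dotProduct, Matrix.mulVec, map_sum, map_mul, Matrix.map_apply, hτ]
    change (fun i => ι ((ρ t).mulVec (fun j => τ (x j)) i)) ∈ F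
    rw [h4]
    exact h3

end Pool.Agent.Helper11.Iso
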