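import Mathlib
import Pool.Agent.Helper11.Iso.Projector
import Pool.Agent.Helper11.Iso.Descent2
import Pool.Agent.Helper65.Iso.TraceZero
import Pool.Agent.Helper91.Iso.Stable

/-!
# Words in anisotropic pieces
-/

universe u v w t

open CategoryTheory Finset Matrix

namespace Pool.Agent.Helper11.Iso

open Pool.Agent.Helper10 SmProjVar SPre Pool.Agent.Helper10.GIT

/-! ### the action of a matrix in one slot -/

section

variable {m : ℕ} {n : Fin m → ℕ} {R : Type*} [CommRing R]

lemma act_update_add (t : Fin m) (A A' : Matrix (Fin (n t)) (Fin (n t)) R) (z : Idx n → R) :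
    act (Function.update (1 : Mats n R) t (A + A')) z =
      act (Function.update (1 : Mats n R) t A) z + act (Function.update (1 : Mats n R) t A') z := by
  funext w
  rw [Pi.add_apply, act_apply, act_apply, act_apply, ← sum_add_distrib]
  refine sum_congr rfl fun w' _ => ?_
  rw [← add_mul, ← mul_prod_erase univ _ (mem_univ t), ← mul_prod_erase univ (fun s =>
    Function.update (1 : Mats n R) t A s (w s) (w' s)) (mem_univ t),
    ← mul_prod_erase univ (fun s =>
    Function.update (1 : Mats n R) t A' s (w s) (w' s)) (mem_univ t)]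
  simp only [Function.update_self, Matrix.add_apply]
  have h1 : ∀ A'' : Matrix (Fin (n t)) (Fin (n t)) R, ∏ s ∈ univ.erase t,
      Function.update (1 : Mats n R) t A'' s (w s) (w' s) =
      ∏ s ∈ univ.erase t, (1 : Mats n R) s (w s) (w' s) := by
    intro A''
    refine prod_congr rfl fun s hs => ?_
    rw [Function.update_of_ne (ne_of_mem_erase hs)]
  rw [h1, h1, h1]
  ring

lemma act_update_smul (t : Fin m) (c : R) (A : Matrix (Fin (n t)) (Fin (n t)) R)
    (z : Idx n → R) :
    act (Function.update (1 : Mats n R) t (c • A)) z =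
      c • act (Function.update (1 : Mats n R) t A) z := by
  funext w
  rw [Pi.smul_apply, act_apply, act_apply, smul_eq_mul, mul_sum]
  refine sum_congr rfl fun w' _ => ?_
  rw [← mul_prod_erase univ _ (mem_univ t), ← mul_prod_erase univ (fun s =>
    Function.update (1 : Mats n R) t A s (w s) (w' s)) (mem_univ t)]
  simp only [Function.update_self, Matrix.smul_apply, smul_eq_mul]
  have h1 : ∀ A'' : Matrix (Fin (n t)) (Fin (n t)) R, ∏ s ∈ univ.erase t,
      Function.update (1 : Mats n R) t A'' s (w s) (w' s) =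
      ∏ s ∈ univ.erase t, (1 : Mats n R) s (w s) (w' s) := by
    intro A''
    refine prod_congr rfl fun s hs => ?_
    rw [Function.update_of_ne (ne_of_mem_erase hs)]
  rw [h1, h1]
  ring

lemma update_mul_update (t : Fin m) (A A' : Matrix (Fin (n t)) (Fin (n t)) R) :
    Function.update (1 : Mats n R) t A * Function.update (1 : Mats n R) t A' =
      Function.update (1 : Mats n R) t (A * A') := by
  funext s
  by_cases h : s = t
  · subst h
    simp
  · simp [Function.update_of_ne h]

end

section

variable {m : ℕ} {n : Fin m → ℕ} {Ω : Type*} [Field Ω]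

/-- a scalar which is not an eigenvalue -/
lemma exists_scalar [Infinite Ω] {l : ℕ} (A : Matrix (Fin l) (Fin l) Ω) :
    ∃ μ : Ω, (μ • (1 : Matrix (Fin l) (Fin l) Ω) + A).det ≠ 0 := by
  obtain ⟨μ, hμ⟩ := Polynomial.exists_eval_ne_zero_of_natDegree_lt_card (-A).charpoly
    (Matrix.charpoly_monic (-A)).ne_zero (lt_of_lt_of_le Cardinal.natCast_lt_aleph0
      (Cardinal.aleph0_le_mk Ω))
  refine ⟨μ, ?_⟩
  rw [Matrix.eval_charpoly, sub_neg_eq_add] at hμ
  convert hμ using 3
  ext i j
  simp [Matrix.one_apply, Matrix.diagonal_apply]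

lemma contra_update (t : Fin m) (A : Matrix (Fin (n t)) (Fin (n t)) Ω) :
    contra (Function.update (1 : Mats n Ω) t A) = Function.update (1 : Mats n Ω) t (A⁻¹)ᵀ := by
  funext s
  unfold contra
  by_cases h : s = t
  · subst h
    simp
  · simp [Function.update_of_ne h]

end

variable {k : Type u} [Field k] {K : Type t} [Field K] {Ω : Type v} [Field Ω] [Algebra K Ω]
  {P : SPre.{u, v, w, t} k K Ω}

/-- A family of classes on `V` which is mapped linearly to itself by the symmetries `G i` and by the
semilinear automorphisms, and whose span contains no non-zero totally isotropic subspace which is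
stable under the symmetries, the semilinear automorphisms and under the algebraic correspondences
on `V` which, together with their transposes, preserve the span. -/
def Aniso {ι : Type*} (G : ι → P.Sym) (V : SmProjVar k) {n : ℕ} (e : Fin n → P.H V) : Prop :=
  (∀ i, ∃ ρ : Matrix (Fin n) (Fin n) Ω, ∀ b, (G i).g V (e b) = ∑ a, ρ a b • e a) ∧
  (∀ σ, ∃ ρ : Matrix (Fin n) (Fin n) Ω, ∀ b, P.s σ V (e b) = ∑ a, ρ a b • e a) ∧
  ∀ F : Submodule Ω (P.H V), F ≤ Submodule.span Ω (Set.range e) →
    (∀ i, ∀ x ∈ F, (G i).g V x ∈ F) → (∀ σ, ∀ x ∈ F, P.s σ V x ∈ F) →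
    (∀ c ∈ P.alg (V.prod V), (∀ b, op c (e b) ∈ Submodule.span Ω (Set.range e)) →
      (∀ b, op (P.pull (swap V) c) (e b) ∈ Submodule.span Ω (Set.range e)) →
      ∀ x ∈ F, op c x ∈ F) →
    (∀ x ∈ F, ∀ y ∈ F, P.tr V (x * y) = 0) → F = ⊥

lemma exists_matrix_of_span {V : SmProjVar k} {n : ℕ} {e : Fin n → P.H V} {g : P.H V → P.H V}
    (h : ∀ b, g (e b) ∈ Submodule.span Ω (Set.range e)) :
    ∃ U : Matrix (Fin n) (Fin n) Ω, ∀ b, g (e b) = ∑ a, U a b • e a := by
  have h1 : ∀ b, ∃ u : Fin n → Ω, ∑ a, u a • e a = g (e b) := fun b =>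
    (Submodule.mem_span_range_iff_exists_fun Ω).mp (h b)
  choose U hU using h1
  exact ⟨fun a b => U b a, fun b => (hU b).symm⟩

section Piece

variable {V : SmProjVar k} {n : ℕ} {e : Fin n → P.H V} {B : Matrix (Fin n) (Fin n) Ω}

/-- the Gram matrix -/
noncomputable def gmat (P : SPre.{u, v, w, t} k K Ω) {V : SmProjVar k} {n : ℕ}
    (e : Fin n → P.H V) : Matrix (Fin n) (Fin n) Ω := Matrix.of fun a b => P.tr V (e a * e b)

lemma gmat_apply (a b : Fin n) : gmat P e a b = P.tr V (e a * e b) := rfl

lemma Piece.gram_mul (h : Piece P V n e B) : gmat P e * B = 1 := h.gram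

lemma Piece.mul_gram (h : Piece P V n e B) : B * gmat P e = 1 :=
  mul_eq_one_comm.mp h.gram_mul

lemma Piece.det_ne (h : Piece P V n e B) : B.det ≠ 0 := by
  intro h0
  have := congrArg Matrix.det h.gram_mul
  rw [Matrix.det_mul, h0, mul_zero, Matrix.det_one] at this
  exact zero_ne_one this

lemma Piece.gram_symm (h : Piece P V n e B) :
    (gmat P e)ᵀ = gmat P e ∨ (gmat P e)ᵀ = -gmat P e := by
  rcases h.parity with hp | hp
  · left
    ext a b
    rw [Matrix.transpose_apply, gmat_apply, gmat_apply, P.ev_comm V _ _ (hp b)]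
  · right
    ext a b
    rw [Matrix.transpose_apply, Matrix.neg_apply, gmat_apply, gmat_apply,
      P.od_anti V _ _ (hp b) (hp a), map_neg]

lemma Piece.symm (h : Piece P V n e B) : Bᵀ = B ∨ Bᵀ = -B := by
  have h1 : Bᵀ * (gmat P e)ᵀ = 1 := by
    rw [← Matrix.transpose_mul, h.gram_mul, Matrix.transpose_one]
  rcases h.gram_symm with h2 | h2
  · left
    rw [h2] at h1
    calc Bᵀ = Bᵀ * (gmat P e * B) := by rw [h.gram_mul, Matrix.mul_one]
      _ = B := by rw [← Matrix.mul_assoc, h1, Matrix.one_mul]
  · right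
    rw [h2, Matrix.mul_neg] at h1
    calc Bᵀ = Bᵀ * (gmat P e * B) := by rw [h.gram_mul, Matrix.mul_one]
      _ = -(-(Bᵀ * gmat P e)) * B := by rw [← Matrix.mul_assoc, neg_neg]
      _ = -B := by rw [h1, Matrix.neg_mul, Matrix.one_mul]

/-- the coordinates of a class with respect to the dual of the family -/
noncomputable def coor (P : SPre.{u, v, w, t} k K Ω) {V : SmProjVar k} {n : ℕ}
    (e : Fin n → P.H V) : P.H V →ₗ[Ω] (Fin n → Ω) :=
  LinearMap.pi fun w => (P.tr V) ∘ₗ (LinearMap.mulRight Ω (e w))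

lemma coor_apply (y : P.H V) (w : Fin n) : coor P e y w = P.tr V (y * e w) := rfl

lemma coor_sum (v : Fin n → Ω) : coor P e (∑ a, v a • e a) = v ᵥ* gmat P e := by
  funext w
  rw [coor_apply, Finset.sum_mul, map_sum, Matrix.vecMul, dotProduct]
  refine sum_congr rfl fun a _ => ?_
  rw [smul_mul_assoc, map_smul, smul_eq_mul, gmat_apply]

/-- the class with given coordinates -/
noncomputable def cls (e : Fin n → P.H V) (B : Matrix (Fin n) (Fin n) Ω) (x : Fin n → Ω) :
    P.H V := ∑ a, (x ᵥ* B) a • e a

lemma Piece.coor_cls (h : Piece P V n e B) (x : Fin n → Ω) : coor P e (cls e B x) = x := by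
  rw [cls, coor_sum, Matrix.vecMul_vecMul, h.mul_gram, Matrix.vecMul_one]

lemma Piece.cls_coor (h : Piece P V n e B) {y : P.H V}
    (hy : y ∈ Submodule.span Ω (Set.range e)) : cls e B (coor P e y) = y := by
  obtain ⟨v, rfl⟩ := (Submodule.mem_span_range_iff_exists_fun Ω).mp hy
  rw [coor_sum, cls, Matrix.vecMul_vecMul, h.gram_mul, Matrix.vecMul_one]

lemma tr_cls (y : P.H V) (x : Fin n → Ω) : P.tr V (y * cls e B x) = (x ᵥ* B) ⬝ᵥ coor P e y := by
  rw [cls, Finset.mul_sum, map_sum, dotProduct]
  refine sum_congr rfl fun a _ => ?_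
  rw [mul_smul_comm, map_smul, smul_eq_mul, coor_apply]

/-- the matrix of the transpose -/
lemma gram_mul_matrix {c : P.H (V.prod V)} (hc : c ∈ P.ev _)
    {U U' : Matrix (Fin n) (Fin n) Ω} (hU : ∀ b, op c (e b) = ∑ a, U a b • e a)
    (hU' : ∀ b, op (P.pull (swap V) c) (e b) = ∑ a, U' a b • e a) :
    gmat P e * U = U'ᵀ * gmat P e := by
  ext i j
  have h1 := tr_op_swap hc (e i) (e j)
  rw [hU, hU', Finset.mul_sum, Finset.sum_mul, map_sum, map_sum] at h1
  simp only [mul_smul_comm, smul_mul_assoc, map_smul, smul_eq_mul] at h1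
  rw [Matrix.mul_apply, Matrix.mul_apply]
  simp only [Matrix.transpose_apply, gmat_apply]
  rw [← h1]
  exact sum_congr rfl fun a _ => mul_comm _ _

lemma coor_op {c : P.H (V.prod V)} (hc : c ∈ P.ev _) {U' : Matrix (Fin n) (Fin n) Ω}
    (hU' : ∀ b, op (P.pull (swap V) c) (e b) = ∑ a, U' a b • e a) (y : P.H V) :
    coor P e (op c y) = U'ᵀ *ᵥ coor P e y := by
  funext w
  have h1 := tr_op_swap (P.pull_ev (swap V) c hc) y (e w)
  rw [pull_pull, swap_swap, pull_id_apply, hU', Finset.mul_sum, map_sum] at h1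
  rw [coor_apply, ← h1, Matrix.mulVec, dotProduct]
  refine sum_congr rfl fun a _ => ?_
  rw [mul_smul_comm, map_smul, smul_eq_mul, Matrix.transpose_apply, coor_apply]

end Piece

/-- the main step: contractions of numerically trivial classes with words in anisotropic
pieces vanish -/
theorem contr_word_aniso [CharZero Ω] {ι : Type*} {G : ι → P.Sym} {X Y : SmProjVar k}
    (hX : P.DP X) {m : ℕ} {V : Fin m → SmProjVar k}
    {n : Fin m → ℕ} (e : ∀ t, Fin (n t) → P.H (V t)) (B : Mats n Ω)
    (he : ∀ t, Piece P (V t) (n t) (e t) (B t)) (ha : ∀ t, Aniso G (V t) (e t))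
    (f : ∀ t, Y.toOver ⟶ (V t).toOver) (hf : IsProdOf f) {r : P.H (X.prod Y)}
    (hr : P.rad (X.prod Y) r) (w : Idx n) :
    P.contr X Y (word (fun t b => P.pull (f t) (e t b)) w) r = 0 := by
  classical
  by_contra hne
  obtain ⟨c, hc⟩ : ∃ c, P.tr X (P.contr X Y (word (fun t b => P.pull (f t) (e t b)) w) r * c) ≠ 0 := by
    by_contra hcon
    push Not at hcon
    exact hne (P.nondeg X _ hcon)
  set x : ∀ t, Fin (n t) → P.H Y := fun t b => P.pull (f t) (e t b) with hx
  set S : Submodule Ω (Idx n → Ω) := tens P X Y x with hS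
  have hP : ∃ z ∈ (S : Set (Idx n → Ω)), z ≠ 0 :=
    ⟨_, Submodule.subset_span ⟨r, hr, c, rfl⟩, fun h0 => hc (congrFun h0 w)⟩
  obtain ⟨t, F, hF0, hFi, hFs'⟩ := exists_isotropic_of_traceZero' hP (traceZero_tens hX e B he f) B
    (fun t => (he t).det_ne) (fun t => (he t).symm) rfl
  have hFs : ∀ (ρ : Mats n Ω), (∀ t, (ρ t).det ≠ 0) → (∀ z ∈ (S : Set (Idx n → Ω)), act ρ z ∈ S) →
        (∀ y ∈ act B '' (S : Set (Idx n → Ω)), act (contra ρ) y ∈ act B '' (S : Set (Idx n → Ω))) →
        ∀ x ∈ F, (ρ t).mulVec x ∈ F := fun ρ h1 h2 h3 x hx =>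
    hFs' ρ (RingEquiv.refl Ω) h1 h2 h3 x hx
  have het := he t
  set gt := gmat P (e t) with hgt
  -- the subspace of `H(V t)`
  let F' : Submodule Ω (P.H (V t)) :=
    F.comap (coor P (e t)) ⊓ Submodule.span Ω (Set.range (e t))
  have hbot := (ha t).2.2 F' inf_le_right ?_ ?_ ?_ ?_
  · obtain ⟨v, hv, hv0⟩ := F.ne_bot_iff.mp hF0
    have h1 : cls (e t) (B t) v ∈ F' := by
      refine ⟨?_, Submodule.sum_mem _ fun a _ => Submodule.smul_mem _ _
        (Submodule.subset_span ⟨a, rfl⟩)⟩
      change coor P (e t) (cls (e t) (B t) v) ∈ F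
      rwa [het.coor_cls]
    rw [hbot] at h1
    have h2 := congrArg (coor P (e t)) ((Submodule.mem_bot Ω).mp h1)
    rw [het.coor_cls, map_zero] at h2
    exact hv0 h2
  · -- symmetries
    intro i y hy
    choose ρ hρ using fun s => (ha s).1 i
    obtain ⟨hdet, hs1, hs2⟩ := tens_sym (X := X) e B he f (G i) ρ hρ
    have h3 := hFs (fun t => (ρ t).transpose) (fun t => by rw [Matrix.det_transpose]; exact hdet t)
      hs1 hs2
    have hu : IsUnit (ρ t).det := isUnit_iff_ne_zero.mpr (hdet t)
    -- `F` is stable under the inverse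
    have h4 : ∀ z ∈ F, ((ρ t)⁻¹)ᵀ *ᵥ z ∈ F := by
      let φ : F →ₗ[Ω] F := ((Matrix.mulVecLin (ρ t)ᵀ)).restrict fun z hz => h3 z hz
      have hinj : Function.Injective φ := by
        intro a b hab
        have h5 : (ρ t)ᵀ *ᵥ (a : Fin (n t) → Ω) = (ρ t)ᵀ *ᵥ b := congrArg Subtype.val hab
        have h6 := congrArg (fun z => ((ρ t)⁻¹)ᵀ *ᵥ z) h5
        simp only [Matrix.mulVec_mulVec, ← Matrix.transpose_mul,
          Matrix.mul_nonsing_inv _ hu, Matrix.transpose_one, Matrix.one_mulVec] at h6
        exact Subtype.ext h6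
      intro z hz
      obtain ⟨⟨z', hz'⟩, h5⟩ := (LinearMap.injective_iff_surjective.mp hinj) ⟨z, hz⟩
      have h6 : (ρ t)ᵀ *ᵥ z' = z := congrArg Subtype.val h5
      rw [← h6, Matrix.mulVec_mulVec, ← Matrix.transpose_mul, Matrix.mul_nonsing_inv _ hu,
        Matrix.transpose_one, Matrix.one_mulVec]
      exact hz'
    obtain ⟨l, -, hl⟩ := (G i).tr (V t)
    have h5 : ∀ b, e t b = ∑ a, (ρ t)⁻¹ a b • (G i).g (V t) (e t a) := by
      intro b
      simp only [hρ t, Finset.smul_sum, smul_smul]
      rw [Finset.sum_comm]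
      have h6 : ∀ c, ∑ a, ((ρ t)⁻¹ a b * ρ t c a) • e t c = (ρ t * (ρ t)⁻¹) c b • e t c := by
        intro c
        rw [← Finset.sum_smul, Matrix.mul_apply]
        congr 1
        exact sum_congr rfl fun a _ => mul_comm _ _
      rw [sum_congr rfl fun c _ => h6 c, Matrix.mul_nonsing_inv _ hu]
      simp [Matrix.one_apply, ite_smul]
    refine ⟨?_, ?_⟩
    · change coor P (e t) ((G i).g (V t) y) ∈ F
      have h6 : coor P (e t) ((G i).g (V t) y) = l • (((ρ t)⁻¹)ᵀ *ᵥ coor P (e t) y) := by
        funext b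
        rw [coor_apply, h5 b, Finset.mul_sum, map_sum, Pi.smul_apply, Matrix.mulVec, dotProduct,
          smul_eq_mul, Finset.mul_sum]
        refine sum_congr rfl fun a _ => ?_
        rw [mul_smul_comm, map_smul, ← map_mul ((G i).g (V t)), hl, smul_eq_mul,
          Matrix.transpose_apply, coor_apply]
        ring
      rw [h6]
      exact F.smul_mem _ (h4 _ hy.1)
    · have h6 : ∀ y ∈ Submodule.span Ω (Set.range (e t)), (G i).g (V t) y ∈
          Submodule.span Ω (Set.range (e t)) := by
        intro y hy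
        induction hy using Submodule.span_induction with
        | mem y hy =>
          obtain ⟨b, rfl⟩ := hy
          rw [hρ t]
          exact Submodule.sum_mem _ fun a _ => Submodule.smul_mem _ _
            (Submodule.subset_span ⟨a, rfl⟩)
        | zero => rw [map_zero]; exact Submodule.zero_mem _
        | add x y _ _ hx hy => rw [map_add]; exact Submodule.add_mem _ hx hy
        | smul a x _ hx => rw [map_smul]; exact Submodule.smul_mem _ _ hx
      exact h6 y hy.2
  · -- semilinear automorphisms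
    intro σ y hy
    choose ρ hρ using fun s => (ha s).2.1 σ
    obtain ⟨hdet, hs1, hs2⟩ := tens_s (X := X) e B he f σ ρ hρ
    have hcontra : contra (fun t => ((ρ t)⁻¹)ᵀ) = ρ := by
      funext s
      have hu : IsUnit (ρ s).det := isUnit_iff_ne_zero.mpr (hdet s)
      change (((ρ s)⁻¹)ᵀ⁻¹)ᵀ = ρ s
      rw [Matrix.transpose_nonsing_inv, Matrix.transpose_transpose,
        Matrix.nonsing_inv_nonsing_inv _ hu]
    have h3 := hFs' (fun t => ((ρ t)⁻¹)ᵀ) (σ : Ω ≃+* Ω) (fun t => by
        rw [Matrix.det_transpose, Matrix.det_nonsing_inv]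
        exact (isUnit_iff_ne_zero.mpr (hdet t)).ringInverse.ne_zero) hs1 (by
        rw [hcontra]
        exact hs2)
    have hu : IsUnit (ρ t).det := isUnit_iff_ne_zero.mpr (hdet t)
    have h5 : ∀ b, e t b = ∑ a, (ρ t)⁻¹ a b • P.s σ (V t) (e t a) := by
      intro b
      simp only [hρ t, Finset.smul_sum, smul_smul]
      rw [Finset.sum_comm]
      have h6 : ∀ c, ∑ a, ((ρ t)⁻¹ a b * ρ t c a) • e t c = (ρ t * (ρ t)⁻¹) c b • e t c := by
        intro c
        rw [← Finset.sum_smul, Matrix.mul_apply]
        congr 1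
        exact sum_congr rfl fun a _ => mul_comm _ _
      rw [sum_congr rfl fun c _ => h6 c, Matrix.mul_nonsing_inv _ hu]
      simp [Matrix.one_apply, ite_smul]
    refine ⟨?_, ?_⟩
    · change coor P (e t) (P.s σ (V t) y) ∈ F
      have h6 : coor P (e t) (P.s σ (V t) y) =
          ((ρ t)⁻¹)ᵀ *ᵥ (fun i => (σ : Ω ≃+* Ω) (coor P (e t) y i)) := by
        funext b
        rw [coor_apply, h5 b, Finset.mul_sum, map_sum, Matrix.mulVec, dotProduct]
        refine sum_congr rfl fun a _ => ?_
        rw [mul_smul_comm, map_smul, ← map_mul (P.s σ (V t)), P.tr_s, smul_eq_mul,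
          Matrix.transpose_apply, coor_apply]
        rfl
      rw [h6]
      exact h3 _ hy.1
    · have h6 : ∀ y ∈ Submodule.span Ω (Set.range (e t)), P.s σ (V t) y ∈
          Submodule.span Ω (Set.range (e t)) := by
        intro y hy
        induction hy using Submodule.span_induction with
        | mem y hy =>
          obtain ⟨b, rfl⟩ := hy
          rw [hρ t]
          exact Submodule.sum_mem _ fun a _ => Submodule.smul_mem _ _
            (Submodule.subset_span ⟨a, rfl⟩)
        | zero => rw [map_zero]; exact Submodule.zero_mem _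
        | add x y _ _ hx hy => rw [map_add]; exact Submodule.add_mem _ hx hy
        | smul a x _ hx => rw [P.s_smul]; exact Submodule.smul_mem _ _ hx
      exact h6 y hy.2
  · -- correspondences
    intro c hc h1 h2 y hy
    have hce := P.alg_le_ev _ hc
    obtain ⟨U, hU⟩ := exists_matrix_of_span h1
    obtain ⟨U', hU'⟩ := exists_matrix_of_span h2
    have hinf : Infinite Ω := inferInstance
    obtain ⟨μ, hμ⟩ := exists_scalar U'ᵀ
    have hgU : gt * U = U'ᵀ * gt := gram_mul_matrix hce hU hU'
    have hgU' : gt * U' = Uᵀ * gt := by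
      have h3 := gram_mul_matrix (c := P.pull (swap (V t)) c) (P.pull_ev _ _ hce) hU' (by
        intro b
        rw [pull_pull, swap_swap, pull_id_apply]
        exact hU b)
      exact h3
    have hopU : ∀ z ∈ S, act (Function.update (1 : Mats n Ω) t Uᵀ) z ∈ S :=
      tens_op e f hf t hc U hU
    have hopU' : ∀ z ∈ S, act (Function.update (1 : Mats n Ω) t U'ᵀ) z ∈ S :=
      tens_op e f hf t (P.pull_mem _ _ hc) U' hU'
    have hsum : ∀ (A : Matrix (Fin (n t)) (Fin (n t)) Ω),
        (∀ z ∈ S, act (Function.update (1 : Mats n Ω) t A) z ∈ S) →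
        ∀ z ∈ S, act (Function.update (1 : Mats n Ω) t
          (μ • (1 : Matrix (Fin (n t)) (Fin (n t)) Ω) + A)) z ∈ S := by
      intro A hA z hz
      rw [act_update_add, act_update_smul]
      refine S.add_mem (S.smul_mem _ ?_) (hA z hz)
      have h3 : Function.update (1 : Mats n Ω) t (1 : Matrix (Fin (n t)) (Fin (n t)) Ω) = 1 :=
        Function.update_eq_self t (1 : Mats n Ω)
      rw [h3, act_one]
      exact hz
    set A := μ • (1 : Matrix (Fin (n t)) (Fin (n t)) Ω) + U'ᵀ with hA
    set A' := μ • (1 : Matrix (Fin (n t)) (Fin (n t)) Ω) + Uᵀ with hA'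
    have hAu : IsUnit A.det := isUnit_iff_ne_zero.mpr hμ
    -- `Aᵀ B = B A'`
    have hAB : Aᵀ * B t = B t * A' := by
      have h3 : gt * Aᵀ = A' * gt := by
        rw [hA, hA', Matrix.transpose_add, Matrix.transpose_smul, Matrix.transpose_one,
          Matrix.transpose_transpose, Matrix.mul_add, Matrix.add_mul, hgU', Matrix.mul_smul,
          Matrix.smul_mul, Matrix.mul_one, Matrix.one_mul]
      calc Aᵀ * B t = (B t * gt) * (Aᵀ * B t) := by rw [het.mul_gram, Matrix.one_mul]
        _ = B t * (gt * Aᵀ) * B t := by simp only [Matrix.mul_assoc]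
        _ = B t * A' * (gt * B t) := by rw [h3]; simp only [Matrix.mul_assoc]
        _ = B t * A' := by rw [het.gram_mul, Matrix.mul_one]
    have hA'det : A'.det ≠ 0 := by
      intro h0
      have h3 := congrArg Matrix.det hAB
      rw [Matrix.det_mul, Matrix.det_mul, h0, mul_zero, Matrix.det_transpose] at h3
      exact (mul_ne_zero hμ het.det_ne) h3
    -- the inverse of `A'` preserves `S`
    have hinvS : ∀ z ∈ S, ∃ z' ∈ S, act (Function.update (1 : Mats n Ω) t A') z' = z := by
      let φ : S →ₗ[Ω] S := (act (Function.update (1 : Mats n Ω) t A')).restrict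
        fun z hz => hsum _ hopU z hz
      have hinj : Function.Injective φ := by
        intro a b hab
        have h5 : act (Function.update (1 : Mats n Ω) t A') (a : Idx n → Ω) =
          act (Function.update (1 : Mats n Ω) t A') b := congrArg Subtype.val hab
        have h6 := congrArg (act (Function.update (1 : Mats n Ω) t A'⁻¹)) h5
        rw [← act_mul, ← act_mul, update_mul_update,
          Matrix.nonsing_inv_mul _ (isUnit_iff_ne_zero.mpr hA'det)] at h6
        have h7 : Function.update (1 : Mats n Ω) t (1 : Matrix (Fin (n t)) (Fin (n t)) Ω) = 1 :=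
          Function.update_eq_self t (1 : Mats n Ω)
        rw [h7, act_one, act_one] at h6
        exact Subtype.ext h6
      intro z hz
      obtain ⟨z', h5⟩ := (LinearMap.injective_iff_surjective.mp hinj) ⟨z, hz⟩
      exact ⟨z', z'.2, congrArg Subtype.val h5⟩
    have h3 := hFs (Function.update (1 : Mats n Ω) t A) (by
        intro s
        by_cases hs : s = t
        · subst hs
          rw [Function.update_self]
          exact hμ
        · rw [Function.update_of_ne hs, Pi.one_apply, Matrix.det_one]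
          exact one_ne_zero) (hsum _ hopU') (by
        rintro _ ⟨z, hz, rfl⟩
        obtain ⟨z', hz', rfl⟩ := hinvS z hz
        refine ⟨z', hz', ?_⟩
        rw [contra_update, ← act_mul, ← act_mul]
        congr 2
        funext s
        by_cases hs : s = t
        · subst hs
          rw [Pi.mul_apply, Pi.mul_apply, Function.update_self, Function.update_self,
            Matrix.mul_assoc, ← hAB, ← Matrix.mul_assoc, ← Matrix.transpose_mul,
            Matrix.mul_nonsing_inv _ hAu, Matrix.transpose_one, Matrix.one_mul]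
        · rw [Pi.mul_apply, Pi.mul_apply, Function.update_of_ne hs, Function.update_of_ne hs]
          simp)
    refine ⟨?_, ?_⟩
    · change coor P (e t) (op c y) ∈ F
      rw [coor_op hce hU']
      have h4 := h3 _ hy.1
      rw [Function.update_self, hA, Matrix.add_mulVec, Matrix.smul_mulVec, Matrix.one_mulVec] at h4
      have h5 := F.sub_mem h4 (F.smul_mem μ hy.1)
      rwa [add_sub_cancel_left] at h5
    · have h6 : ∀ y ∈ Submodule.span Ω (Set.range (e t)), op c y ∈
          Submodule.span Ω (Set.range (e t)) := by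
        intro y hy
        induction hy using Submodule.span_induction with
        | mem y hy =>
          obtain ⟨b, rfl⟩ := hy
          exact h1 b
        | zero => rw [map_zero]; exact Submodule.zero_mem _
        | add x y _ _ hx hy => rw [map_add]; exact Submodule.add_mem _ hx hy
        | smul a x _ hx => rw [map_smul]; exact Submodule.smul_mem _ _ hx
      exact h6 y hy.2
  · -- isotropy
    intro y hy y' hy'
    rw [← het.cls_coor hy'.2, tr_cls, dotProduct_comm, ← Matrix.mulVec_transpose]
    have h1 := hFi _ hy.1 _ hy'.1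
    rcases het.symm with h2 | h2
    · rw [h2]; exact h1
    · rw [h2, Matrix.neg_mulVec, dotProduct_neg, h1, neg_zero]

/-! ### products of finitely many varieties -/

/-- the product of the varieties `V 0, …, V m` -/
lemma exists_prodFin : ∀ (m : ℕ) (V : Fin (m + 1) → SmProjVar k),
    ∃ (Y : SmProjVar k) (f : ∀ t, Y.toOver ⟶ (V t).toOver), IsProdOf f := by
  intro m
  induction m with
  | zero =>
    intro V
    refine ⟨V 0, Fin.cases (motive := fun t => (V 0).toOver ⟶ (V t).toOver) (𝟙 (V 0).toOver)
      (fun i => i.elim0), fun T g => ⟨g 0, fun t => ?_⟩⟩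
    induction t using Fin.cases with
    | zero => exact Category.comp_id _
    | succ i => exact i.elim0
  | succ m ih =>
    intro V
    obtain ⟨Y, f, hf⟩ := ih (fun i => V i.castSucc)
    let f' : ∀ t, (Y.prod (V (Fin.last (m + 1)))).toOver ⟶ (V t).toOver :=
      Fin.lastCases (motive := fun t => (Y.prod (V (Fin.last (m + 1)))).toOver ⟶ (V t).toOver)
        (snd _ _) (fun i => fst _ _ ≫ f i)
    have h1 : f' (Fin.last (m + 1)) = snd _ _ := Fin.lastCases_last
    have h2 : ∀ i : Fin (m + 1), f' i.castSucc = fst _ _ ≫ f i := fun i =>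
      Fin.lastCases_castSucc (i := i)
    refine ⟨_, f', fun T g => ?_⟩
    obtain ⟨φ, hφ⟩ := hf T (fun i => g i.castSucc)
    refine ⟨lift φ (g (Fin.last (m + 1))), fun t => ?_⟩
    induction t using Fin.lastCases with
    | last => rw [h1, lift_snd]
    | cast i => rw [h2, lift_fst_assoc, hφ]

/-! ### the letters -/

/-- the pull-backs of the members of anisotropic pieces -/
def anisoLetters (P : SPre.{u, v, w, t} k K Ω) {ι : Type*} (G : ι → P.Sym) (T : SmProjVar k) :
    Set (P.H T) :=
  {y | ∃ (V : SmProjVar k) (n : ℕ) (e : Fin n → P.H V) (B : Matrix (Fin n) (Fin n) Ω)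
    (f : T.toOver ⟶ V.toOver) (b : Fin n), Piece P V n e B ∧ Aniso G V e ∧ y = P.pull f (e b)}

theorem isLetters_aniso [CharZero Ω] {ι : Type*} (G : ι → P.Sym) :
    IsLetters P (anisoLetters P G) where
  hom := by
    rintro T _ ⟨V, n, e, B, f, b, he, _, rfl⟩
    rcases he.parity with h | h
    · exact .inl (P.pull_ev _ _ (h b))
    · exact .inr (P.pull_od _ _ (h b))
  pull := by
    rintro T Z g _ ⟨V, n, e, B, f, b, he, ha, rfl⟩
    exact ⟨V, n, e, B, g ≫ f, b, he, ha, pull_pull _ _ _⟩
  zero := by
    intro X hX T y hy r hr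
    obtain ⟨l, hl, rfl⟩ := Submonoid.exists_list_of_mem_closure hy
    rcases Nat.eq_zero_or_pos l.length with h0 | h0
    · rw [List.length_eq_zero_iff.mp h0, List.prod_nil]
      exact hX 0 _ (contr_rad (P.one_mem T) hr)
    · obtain ⟨m, hm⟩ : ∃ m, l.length = m + 1 := ⟨l.length - 1, by omega⟩
      have h1 : ∀ i : Fin (m + 1), ∃ (V : SmProjVar k) (n : ℕ) (e : Fin n → P.H V)
          (B : Matrix (Fin n) (Fin n) Ω) (f : T.toOver ⟶ V.toOver) (b : Fin n),
          Piece P V n e B ∧ Aniso G V e ∧ l.get (i.cast hm.symm) = P.pull f (e b) :=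
        fun i => hl _ (List.get_mem l _)
      choose V n e B f b he ha hb using h1
      obtain ⟨Y, p, hp⟩ := exists_prodFin m V
      obtain ⟨φ, hφ⟩ := hp T f
      have h2 : l.prod = P.pull φ (word (fun t b => P.pull (p t) (e t b)) b) := by
        have h3 : List.ofFn (fun i : Fin (m + 1) => l.get (i.cast hm.symm)) = l := by
          refine List.ext_getElem (by rw [List.length_ofFn, hm]) fun i h h' => ?_
          rw [List.getElem_ofFn]
          rfl
        have h4 : (fun i : Fin (m + 1) => l.get (i.cast hm.symm)) =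
            fun i => P.pull φ (P.pull (p i) (e i (b i))) := by
          funext i
          rw [hb i, pull_pull, hφ i]
        unfold word
        rw [map_list_prod, List.map_ofFn, ← h3, h4]
        rfl
      rw [h2, contr_pull]
      exact contr_word_aniso hX e B he ha p hp (pushF_rad _ hr) b

end Pool.Agent.Helper11.Iso
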