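import Mathlib
import Pool.Agent.Helper11.Iso.Words

/-!
# The part of the cohomology which is orthogonal to the images of the powers of `X`
-/

universe u v w t

open CategoryTheory Finset Matrix

namespace Pool.Agent.Helper11.Iso

open Pool.Agent.Helper10 SmProjVar SPre Pool.Agent.Helper10.GIT

variable {k : Type u} [Field k] {K : Type t} [Field K] {Ω : Type v} [Field Ω] [Algebra K Ω]
  {P : SPre.{u, v, w, t} k K Ω} {A V : SmProjVar k}

lemma tr_mul_ext {c : P.H (A.prod V)} (hc : c ∈ P.ev _) (x : P.H A) (y : P.H V) :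
    P.tr _ (c * P.ext A V x y) = P.tr V (op c x * y) := by
  rw [op_apply, tr_pushF, SPre.ext, ← mul_assoc, P.ev_comm _ _ _ hc]

lemma op_inj {c d : P.H (A.prod V)} (hc : c ∈ P.ev _) (hd : d ∈ P.ev _)
    (h : ∀ x, op c x = op d x) : c = d :=
  eq_of_tr_ext fun x y _ _ => by rw [tr_mul_ext hc, tr_mul_ext hd, h]

lemma op_bilinear {n : ℕ} (e : Fin n → P.H V) (B : Matrix (Fin n) (Fin n) Ω) (x : P.H V) :
    op (∑ a, ∑ b, B a b • P.ext V V (e a) (e b)) x = cls e B (coor P e x) := by
  have hsum : ∀ (f : Fin n → P.H (V.prod V)), op (∑ a, f a) = ∑ a, op (f a) := by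
    intro f
    have h1 : ∀ s : Finset (Fin n), op (∑ a ∈ s, f a) = ∑ a ∈ s, op (f a) := by
      intro s
      induction s using Finset.induction_on with
      | empty => rw [Finset.sum_empty, Finset.sum_empty, op_zero]
      | insert a s ha ih => rw [Finset.sum_insert ha, Finset.sum_insert ha, op_add, ih]
    exact h1 _
  rw [hsum, LinearMap.sum_apply]
  simp only [hsum, op_smul, LinearMap.sum_apply, LinearMap.smul_apply, op_ext]
  rw [cls, Finset.sum_comm]
  refine sum_congr rfl fun b _ => ?_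
  rw [Matrix.vecMul, dotProduct, Finset.sum_smul]
  refine sum_congr rfl fun a _ => ?_
  rw [smul_smul, coor_apply, mul_comm]

/-- an algebraic projector onto a subspace of pure parity gives a piece -/
theorem exists_piece (N₀ : Submodule Ω (P.H V)) (hN : N₀ ≤ P.ev V ∨ N₀ ≤ P.od V)
    {q : P.H (V.prod V)} (hq : q ∈ P.alg (V.prod V)) (h1 : ∀ y ∈ N₀, op q y = y)
    (h2 : ∀ y, op q y ∈ N₀) (h3 : ∀ y ∈ orth P N₀, op q y = 0)
    (h4 : ∀ x, x - op q x ∈ orth P N₀) :
    ∃ (n : ℕ) (e : Fin n → P.H V) (B : Matrix (Fin n) (Fin n) Ω),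
      Piece P V n e B ∧ Submodule.span Ω (Set.range e) = N₀ := by
  classical
  have hfin : Module.Finite Ω (P.H V) := P.fin V
  let b := Module.finBasis Ω N₀
  let e : Fin (Module.finrank Ω N₀) → P.H V := fun i => (b i : P.H V)
  have heN : ∀ i, e i ∈ N₀ := fun i => (b i).2
  have hspan : Submodule.span Ω (Set.range e) = N₀ := by
    have h5 : Set.range e = N₀.subtype '' Set.range b := by
      rw [← Set.range_comp]; rfl
    rw [h5, ← Submodule.map_span, b.span_eq, Submodule.map_top, Submodule.range_subtype]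
  have hpar : (∀ b, e b ∈ P.ev V) ∨ ∀ b, e b ∈ P.od V := by
    rcases hN with h | h
    · exact .inl fun b => h (heN b)
    · exact .inr fun b => h (heN b)
  have hdet : (gmat P e).det ≠ 0 := by
    intro h0
    obtain ⟨v, hv0, hv⟩ := Matrix.exists_mulVec_eq_zero_iff.mpr h0
    apply hv0
    have hy : ∑ j, v j • e j ∈ N₀ := Submodule.sum_mem _ fun j _ => Submodule.smul_mem _ _ (heN j)
    have h6 : ∑ j, v j • e j ∈ orth P N₀ := by
      intro m hm
      rw [← hspan] at hm
      induction hm using Submodule.span_induction with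
      | mem m hm =>
        obtain ⟨i, rfl⟩ := hm
        have h9 := congrFun hv i
        rw [Pi.zero_apply, Matrix.mulVec, dotProduct] at h9
        rw [Finset.mul_sum, map_sum, ← h9]
        refine sum_congr rfl fun j _ => ?_
        rw [mul_smul_comm, map_smul, smul_eq_mul, gmat_apply, mul_comm]
      | zero => rw [zero_mul, map_zero]
      | add x y _ _ hx hy => rw [add_mul, map_add, hx, hy, add_zero]
      | smul a x _ hx => rw [smul_mul_assoc, map_smul, hx, smul_zero]
    have h7 : ∑ j, v j • e j = 0 := by rw [← h1 _ hy, h3 _ h6]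
    have h8 : ∑ j, v j • b j = 0 := by
      apply Subtype.ext
      rw [Submodule.coe_sum]
      exact h7
    exact funext fun j => Fintype.linearIndependent_iff.mp b.linearIndependent v h8 j
  have hg : gmat P e * (gmat P e)⁻¹ = 1 :=
    Matrix.mul_nonsing_inv _ (isUnit_iff_ne_zero.mpr hdet)
  refine ⟨_, e, (gmat P e)⁻¹, ⟨hpar, hg, ?_⟩, hspan⟩
  have hce : ∑ a, ∑ b, (gmat P e)⁻¹ a b • P.ext V V (e a) (e b) ∈ P.ev (V.prod V) := by
    refine Submodule.sum_mem _ fun a _ => Submodule.sum_mem _ fun b _ =>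
      Submodule.smul_mem _ _ ?_
    rcases hpar with h | h
    · exact P.ev_mul_ev _ _ _ (P.pull_ev _ _ (h a)) (P.pull_ev _ _ (h b))
    · exact P.od_mul_od _ _ _ (P.pull_od _ _ (h a)) (P.pull_od _ _ (h b))
  have key : ∑ a, ∑ b, (gmat P e)⁻¹ a b • P.ext V V (e a) (e b) = q := by
    refine op_inj hce (P.alg_le_ev _ hq) fun x => ?_
    rw [op_bilinear]
    have h5 : coor P e (x - op q x) = 0 := by
      funext a
      rw [coor_apply, Pi.zero_apply]
      have h6 := h4 x _ (heN a)
      rw [tr_par]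
      rcases hpar with h | h
      · rw [par_ev (h a)]; exact h6
      · rw [par_od (h a), neg_mul, map_neg, h6, neg_zero]
    rw [map_sub, sub_eq_zero] at h5
    rw [h5]
    have h6 : op q x ∈ Submodule.span Ω (Set.range e) := by
      rw [hspan]
      exact h2 x
    obtain ⟨v, hv⟩ := (Submodule.mem_span_range_iff_exists_fun Ω).mp h6
    rw [← hv, coor_sum, cls, Matrix.vecMul_vecMul, hg, Matrix.vecMul_one]
  rw [key]
  exact hq

/-- an algebraic projector onto a subspace of pure parity gives a piece -/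
theorem exists_piece' (N₀ C : Submodule Ω (P.H V)) (hN : N₀ ≤ P.ev V ∨ N₀ ≤ P.od V)
    (hsup : N₀ ⊔ C = ⊤) (hC : ∀ y ∈ N₀, ∀ c ∈ C, P.tr V (y * c) = 0)
    {q : P.H (V.prod V)} (hq : q ∈ P.alg (V.prod V)) (h1 : ∀ y ∈ N₀, op q y = y)
    (h0 : ∀ c ∈ C, op q c = 0) :
    ∃ (n : ℕ) (e : Fin n → P.H V) (B : Matrix (Fin n) (Fin n) Ω),
      Piece P V n e B ∧ Submodule.span Ω (Set.range e) = N₀ := by
  have hdec : ∀ x : P.H V, ∃ y ∈ N₀, ∃ c ∈ C, y + c = x := fun x => by
    have : x ∈ N₀ ⊔ C := by rw [hsup]; trivial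
    exact Submodule.mem_sup.mp this
  have hop : ∀ y ∈ N₀, ∀ c ∈ C, op q (y + c) = y := fun y hy c hc => by
    rw [map_add, h1 y hy, h0 c hc, add_zero]
  refine exists_piece N₀ hN hq h1 (fun x => ?_) (fun x hx => ?_) fun x => ?_
  · obtain ⟨y, hy, c, hc, rfl⟩ := hdec x
    rw [hop y hy c hc]; exact hy
  · obtain ⟨y, hy, c, hc, rfl⟩ := hdec x
    rw [hop y hy c hc]
    refine P.nondeg' V y fun z => ?_
    obtain ⟨y', hy', c', hc', rfl⟩ := hdec z
    have h2 : P.tr V (y' * y) = 0 := by
      have h3 := hx y' hy'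
      rwa [mul_add, map_add, hC y' hy' c hc, add_zero] at h3
    have h4 : P.tr V (c' * y) = 0 := by
      rw [tr_par]
      rcases hN with h | h
      · rw [par_ev (h hy)]; exact hC y hy c' hc'
      · rw [par_od (h hy), neg_mul, map_neg, hC y hy c' hc', neg_zero]
    rw [add_mul, map_add, h2, h4, add_zero]
  · obtain ⟨y, hy, c, hc, rfl⟩ := hdec x
    rw [hop y hy c hc, add_sub_cancel_left]
    exact fun m hm => hC m hm c hc

/-! ### parity -/

lemma par_mul (x y : P.H V) : par P V (x * y) = par P V x * par P V y := by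
  obtain ⟨a, ha, b, hb, rfl⟩ := P.exists_decomp V x
  obtain ⟨c, hc, d, hd, rfl⟩ := P.exists_decomp V y
  simp only [add_mul, mul_add, map_add]
  rw [par_ev ha, par_ev hc, par_od hb, par_od hd, par_ev (P.ev_mul_ev V _ _ ha hc),
    par_od (P.ev_mul_od V _ _ ha hd), par_od (P.od_mul_ev V _ _ hb hc),
    par_ev (P.od_mul_od V _ _ hb hd)]
  noncomm_ring

lemma tr_par_self (x : P.H V) : P.tr V (par P V x) = P.tr V x := by
  obtain ⟨a, ha, b, hb, rfl⟩ := P.exists_decomp V x
  rw [map_add, par_ev ha, par_od hb, map_add, map_add, map_neg, P.tr_od V b hb, neg_zero]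

/-- the parts of an element of a subspace which is stable under the parity involution -/
lemma parts_mem [CharZero Ω] {M : Submodule Ω (P.H V)} (hM : ∀ y ∈ M, par P V y ∈ M)
    {a b : P.H V} (ha : a ∈ P.ev V) (hb : b ∈ P.od V) (hab : a + b ∈ M) : a ∈ M ∧ b ∈ M := by
  have h1 := hM _ hab
  rw [map_add, par_ev ha, par_od hb] at h1
  have h2 := M.add_mem hab h1
  have h3 : a + b + (a + -b) = (2 : Ω) • a := by rw [two_smul]; abel
  rw [h3] at h2
  have h4 : a ∈ M := by
    have h5 := M.smul_mem (2 : Ω)⁻¹ h2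
    rwa [smul_smul, inv_mul_cancel₀ (two_ne_zero), one_smul] at h5
  refine ⟨h4, ?_⟩
  have h5 := M.sub_mem hab h4
  rwa [add_sub_cancel_left] at h5

lemma par_mem_orth {M : Submodule Ω (P.H V)} (hM : ∀ y ∈ M, par P V y ∈ M) {y : P.H V}
    (hy : y ∈ orth P M) : par P V y ∈ orth P M := by
  intro m hm
  rw [← tr_par_self, par_mul, par_par]
  exact hy _ (hM m hm)

/-! ### symmetries and parity -/

/-- symmetries preserve the parity -/
lemma Sym.ev_od [CharZero Ω] (γ : P.Sym) (V : SmProjVar k) :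
    (∀ x ∈ P.ev V, γ.g V x ∈ P.ev V) ∧ ∀ x ∈ P.od V, γ.g V x ∈ P.od V := by
  have hsw : ∀ (x y : P.H V), P.pull (swap V) (P.ext V V x y) =
      P.pull (snd V V) x * P.pull (fst V V) y := by
    intro x y
    rw [SPre.ext, map_mul (P.pull _), pull_pull, pull_pull, swap, lift_fst, lift_snd]
  have key : ∀ (x : P.H V) (s : Ω),
      P.pull (swap V) (P.ext V V x x) = s • P.ext V V x x →
      P.pull (snd V V) (γ.g V x) * P.pull (fst V V) (γ.g V x) =
        s • P.ext V V (γ.g V x) (γ.g V x) := by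
    intro x s h
    have h1 := congrArg (γ.g (V.prod V)) h
    rw [γ.pull, map_smul, SPre.ext, map_mul (γ.g _), γ.pull, γ.pull] at h1
    rw [← hsw]
    exact h1
  have hexp : ∀ a ∈ P.ev V, ∀ b ∈ P.od V,
      P.pull (snd V V) (a + b) * P.pull (fst V V) (a + b) =
        P.ext V V a a + P.ext V V a b + P.ext V V b a - P.ext V V b b := by
    intro a ha b hb
    have e1 : P.pull (snd V V) a * P.pull (fst V V) a = P.ext V V a a :=
      P.ev_comm _ _ _ (P.pull_ev _ _ ha)
    have e2 : P.pull (snd V V) a * P.pull (fst V V) b = P.ext V V b a :=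
      P.ev_comm _ _ _ (P.pull_ev _ _ ha)
    have e3 : P.pull (snd V V) b * P.pull (fst V V) a = P.ext V V a b :=
      (P.ev_comm _ _ _ (P.pull_ev _ _ ha)).symm
    have e4 : P.pull (snd V V) b * P.pull (fst V V) b = -P.ext V V b b :=
      P.od_anti _ _ _ (P.pull_od _ _ hb) (P.pull_od _ _ hb)
    rw [map_add (P.pull (snd V V)), map_add (P.pull (fst V V)), add_mul, mul_add, mul_add, e1, e2,
      e3, e4]
    abel
  have hexp' : ∀ a b : P.H V, P.ext V V (a + b) (a + b) =
        P.ext V V a a + P.ext V V a b + P.ext V V b a + P.ext V V b b := by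
    intro a b
    unfold SPre.ext
    rw [map_add (P.pull _), map_add (P.pull _)]
    noncomm_ring
  constructor
  · intro x hx
    obtain ⟨a, ha, b, hb, hab⟩ := P.exists_decomp V (γ.g V x)
    have h1 := key x 1 (by
      rw [hsw, one_smul]
      exact P.ev_comm _ _ _ (P.pull_ev _ _ hx))
    rw [← hab, hexp a ha b hb, hexp' a b, one_smul] at h1
    have h2 : (2 : Ω) • P.ext V V b b = 0 := by
      rw [two_smul]
      have := congrArg (fun z => P.ext V V a a + P.ext V V a b + P.ext V V b a +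
        P.ext V V b b - z) h1
      simp only [sub_self] at this
      rw [← this]
      abel
    have h3 : b = 0 := by
      by_contra hb0
      exact (smul_ne_zero two_ne_zero (ext_ne_zero hb0 hb0)) h2
    rw [← hab, h3, add_zero]
    exact ha
  · intro x hx
    obtain ⟨a, ha, b, hb, hab⟩ := P.exists_decomp V (γ.g V x)
    have h1 := key x (-1) (by
      rw [hsw, neg_one_smul]
      exact P.od_anti _ _ _ (P.pull_od _ _ hx) (P.pull_od _ _ hx))
    rw [← hab, hexp a ha b hb, hexp' a b, neg_one_smul] at h1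
    have h2 : (2 : Ω) • (P.ext V V a (a + b) + P.ext V V b a) = 0 := by
      have h3 : P.ext V V a (a + b) = P.ext V V a a + P.ext V V a b := by
        unfold SPre.ext
        rw [map_add (P.pull _), mul_add]
      rw [two_smul, h3]
      have := congrArg (fun z => z + (P.ext V V a a + P.ext V V a b + P.ext V V b a +
        P.ext V V b b)) h1
      simp only [neg_add_cancel] at this
      rw [← this]
      abel
    have h3 : P.ext V V a (a + b) + P.ext V V b a = 0 :=
      (smul_eq_zero.mp h2).resolve_left two_ne_zero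
    have h4 : a = 0 := by
      refine P.nondeg V a fun ψ => ?_
      by_contra hψ
      obtain ⟨c, hc, d, hd, rfl⟩ := P.exists_decomp V ψ
      have e1 : P.tr V (a * d) = 0 := P.tr_od V _ (P.ev_mul_od V _ _ ha hd)
      rw [mul_add, map_add, e1, add_zero] at hψ
      have h5 := congrArg (fun z => P.pushF (snd V V) (P.pull (fst V V) c * z)) h3
      have h6 : ∀ y z : P.H V, P.pull (fst V V) c * P.ext V V y z = P.ext V V (c * y) z := by
        intro y z
        unfold SPre.ext
        rw [map_mul (P.pull _), mul_assoc]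
      simp only [mul_add, map_add, mul_zero, map_zero] at h5
      rw [h6, h6, pushF_snd_ext, pushF_snd_ext, P.tr_od V (c * b) (P.ev_mul_od V _ _ hc hb),
        zero_smul, add_zero, P.ev_comm V _ _ hc] at h5
      have h7 : a + b = 0 := (smul_eq_zero.mp h5).resolve_left hψ
      have h8 : a ∈ P.od V := by
        have : a = -b := eq_neg_of_add_eq_zero_left h7
        rw [this]
        exact Submodule.neg_mem _ hb
      have h9 : a = 0 := by
        have := (P.ev_inf_od V).le_bot ⟨ha, h8⟩
        simpa using this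
      exact hψ (by rw [h9, zero_mul, map_zero])
    rw [← hab, h4, zero_add]
    exact hb

/-! ### the image is stable -/

/-- induction for the image -/
lemma image_induction {ι : Type*} {A : ι → SmProjVar k} {p : P.H V → Prop}
    (mem : ∀ i, ∀ κ ∈ P.alg ((A i).prod V), ∀ x, p (op κ x)) (zero : p 0)
    (add : ∀ x y, p x → p y → p (x + y)) (smul : ∀ (a : Ω) x, p x → p (a • x)) {y : P.H V}
    (hy : y ∈ image P A V) : p y := by
  unfold image at hy
  induction hy using Submodule.span_induction with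
  | mem y hy =>
    obtain ⟨i, κ, x, hκ, rfl⟩ := hy
    exact mem i κ hκ x
  | zero => exact zero
  | add x y _ _ hx hy => exact add x y hx hy
  | smul a x _ hx => exact smul a x hx

lemma op_mem {ι : Type*} (A : ι → SmProjVar k) (i : ι) {κ : P.H ((A i).prod V)}
    (hκ : κ ∈ P.alg _) (x : P.H (A i)) : op κ x ∈ image P A V :=
  Submodule.subset_span ⟨i, κ, x, hκ, rfl⟩

lemma image_par {ι : Type*} (A : ι → SmProjVar k) {y : P.H V} (hy : y ∈ image P A V) :
    par P V y ∈ image P A V := by
  refine image_induction (p := fun y => par P V y ∈ image P A V) (fun i κ hκ x => ?_) ?_ ?_ ?_ hy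
  · rw [← op_par (P.alg_le_ev _ hκ)]
    exact op_mem A i hκ _
  · rw [map_zero]; exact Submodule.zero_mem _
  · intro x y hx hy
    rw [map_add]; exact Submodule.add_mem _ hx hy
  · intro a x hx
    rw [map_smul]; exact Submodule.smul_mem _ _ hx

lemma image_op {ι : Type*} (A : ι → SmProjVar k) {c : P.H (V.prod V)} (hc : c ∈ P.alg _)
    {y : P.H V} (hy : y ∈ image P A V) : op c y ∈ image P A V := by
  refine image_induction (p := fun y => op c y ∈ image P A V) (fun i κ hκ x => ?_) ?_ ?_ ?_ hy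
  · rw [← op_comp]
    exact op_mem A i (comp_mem hκ hc) _
  · rw [map_zero]; exact Submodule.zero_mem _
  · intro x y hx hy
    rw [map_add]; exact Submodule.add_mem _ hx hy
  · intro a x hx
    rw [map_smul]; exact Submodule.smul_mem _ _ hx

lemma orth_op {M : Submodule Ω (P.H V)} (hM : ∀ c ∈ P.alg (V.prod V), ∀ y ∈ M, op c y ∈ M)
    {c : P.H (V.prod V)} (hc : c ∈ P.alg _) {y : P.H V} (hy : y ∈ orth P M) :
    op c y ∈ orth P M := by
  intro m hm
  rw [tr_op_swap (P.alg_le_ev _ hc)]
  exact hy _ (hM _ (P.pull_mem _ _ hc) m hm)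

/-- symmetries and push-forward -/
lemma Sym.pushF (γ : P.Sym) {A B : SmProjVar k} (f : A.toOver ⟶ B.toOver) :
    ∃ l : Ω, l ≠ 0 ∧ ∀ x, γ.g B (P.pushF f x) = l • P.pushF f (γ.g A x) := by
  obtain ⟨a, ha0, ha⟩ := γ.tr A
  obtain ⟨b, hb0, hb⟩ := γ.tr B
  refine ⟨b * a⁻¹, mul_ne_zero hb0 (inv_ne_zero ha0), fun x => eq_of_tr fun z => ?_⟩
  obtain ⟨z, rfl⟩ := (γ.g B).surjective z
  rw [← map_mul (γ.g B), hb, tr_pushF, smul_mul_assoc, map_smul, tr_pushF, ← γ.pull,
    ← map_mul (γ.g A), ha, smul_eq_mul, mul_assoc, inv_mul_cancel_left₀ ha0]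

lemma Sym.op (γ : P.Sym) (A B : SmProjVar k) :
    ∃ l : Ω, l ≠ 0 ∧ ∀ (c : P.H (A.prod B)) (x : P.H A),
      γ.g B (op c x) = l • op (γ.g _ c) (γ.g A x) := by
  obtain ⟨l, hl, h⟩ := Sym.pushF γ (snd A B)
  refine ⟨l, hl, fun c x => ?_⟩
  rw [op_apply, h, op_apply, map_mul (γ.g _), γ.pull]

lemma image_sym_symm {ι : Type*} (A : ι → SmProjVar k) (γ : P.Sym) {y : P.H V}
    (hy : y ∈ image P A V) : (γ.g V).symm y ∈ image P A V := by
  refine image_induction (p := fun y => (γ.g V).symm y ∈ image P A V) (fun i κ hκ x => ?_) ?_ ?_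
    ?_ hy
  · obtain ⟨l, hl, h⟩ := Sym.op γ (A i) V
    have h1 := h ((γ.g _).symm κ) ((γ.g _).symm x)
    rw [AlgEquiv.apply_symm_apply, AlgEquiv.apply_symm_apply] at h1
    have h2 : (γ.g V).symm (op κ x) = l⁻¹ • op ((γ.g _).symm κ) ((γ.g _).symm x) := by
      rw [AlgEquiv.symm_apply_eq, map_smul, h1, smul_smul, inv_mul_cancel₀ hl, one_smul]
    rw [h2]
    refine Submodule.smul_mem _ _ (op_mem A i ((γ.alg _ _).mp ?_) _)
    rwa [AlgEquiv.apply_symm_apply]
  · rw [map_zero]; exact Submodule.zero_mem _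
  · intro x y hx hy
    rw [map_add]; exact Submodule.add_mem _ hx hy
  · intro a x hx
    rw [map_smul]; exact Submodule.smul_mem _ _ hx

lemma orth_sym {M : Submodule Ω (P.H V)} {γ : P.Sym} (hM : ∀ y ∈ M, (γ.g V).symm y ∈ M)
    {y : P.H V} (hy : y ∈ orth P M) : γ.g V y ∈ orth P M := by
  intro m hm
  obtain ⟨c, -, hc⟩ := γ.tr V
  have h1 : m * γ.g V y = γ.g V ((γ.g V).symm m * y) := by
    rw [map_mul (γ.g V), AlgEquiv.apply_symm_apply]
  rw [h1, hc, hy _ (hM m hm), mul_zero]

lemma image_s_symm {ι : Type*} (A : ι → SmProjVar k) (σ : Ω ≃ₐ[K] Ω) {y : P.H V}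
    (hy : y ∈ image P A V) : (P.s σ V).symm y ∈ image P A V := by
  have hsm : ∀ (a : Ω) (x : P.H V), (P.s σ V).symm (a • x) = σ.symm a • (P.s σ V).symm x := by
    intro a x
    rw [RingEquiv.symm_apply_eq, P.s_smul, AlgEquiv.apply_symm_apply, RingEquiv.apply_symm_apply]
  refine image_induction (p := fun y => (P.s σ V).symm y ∈ image P A V) (fun i κ hκ x => ?_) ?_ ?_
    ?_ hy
  · have h2 : (P.s σ V).symm (op κ x) = op ((P.s σ _).symm κ) ((P.s σ _).symm x) := by
      rw [RingEquiv.symm_apply_eq, op_apply, op_apply, pushF_s, map_mul (P.s σ _), P.s_pull,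
        RingEquiv.apply_symm_apply, RingEquiv.apply_symm_apply]
    rw [h2]
    refine op_mem A i ((P.s_alg σ _ _).mp ?_) _
    rwa [RingEquiv.apply_symm_apply]
  · rw [map_zero]; exact Submodule.zero_mem _
  · intro x y hx hy
    rw [map_add]; exact Submodule.add_mem _ hx hy
  · intro a x hx
    rw [hsm]; exact Submodule.smul_mem _ _ hx

lemma orth_s {M : Submodule Ω (P.H V)} {σ : Ω ≃ₐ[K] Ω} (hM : ∀ y ∈ M, (P.s σ V).symm y ∈ M)
    {y : P.H V} (hy : y ∈ orth P M) : P.s σ V y ∈ orth P M := by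
  intro m hm
  have h1 : m * P.s σ V y = P.s σ V ((P.s σ V).symm m * y) := by
    rw [map_mul (P.s σ V), RingEquiv.apply_symm_apply]
  rw [h1, P.tr_s, hy _ (hM m hm), map_zero]

/-! ### generators -/

lemma op_mem_rgen {L : ∀ T : SmProjVar k, Set (P.H T)} {X A V : SmProjVar k} (hA : PowLike X A)
    {κ : P.H (A.prod V)} (hκ : κ ∈ P.alg _) (x : P.H A) :
    op κ x ∈ Submodule.span Ω (rgen P L X V) := by
  have key : ∀ x, P.Hom A x → op κ x ∈ Submodule.span Ω (rgen P L X V) := by
    intro x hx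
    refine Submodule.subset_span ⟨A, A.prod V, fst A V, snd A V, κ, 1, x, hA, hκ,
      Submonoid.one_mem _, hx, ?_⟩
    rw [op_apply, mul_one, P.ev_comm _ _ _ (P.alg_le_ev _ hκ)]
  obtain ⟨a, ha, b, hb, rfl⟩ := P.exists_decomp A x
  rw [map_add]
  exact Submodule.add_mem _ (key a (.inl ha)) (key b (.inr hb))

lemma letter_mem_rgen {L : ∀ T : SmProjVar k, Set (P.H T)} (hL : IsLetters P L)
    {X V : SmProjVar k} (hX : ∃ x : P.H X, P.Hom X x ∧ P.tr X x = 1) {y : P.H V} (hy : y ∈ L V) :
    y ∈ rgen P L X V := by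
  obtain ⟨x, hx, hx1⟩ := hX
  refine ⟨X, X.prod V, fst X V, snd X V, 1, P.pull (snd X V) y, x, PowLike.refl X,
    P.one_mem _, Submonoid.subset_closure (hL.pull _ y hy), hx, ?_⟩
  have h1 := pushF_snd_ext x (1 : P.H V)
  rw [SPre.ext, map_one, mul_one, hx1, one_smul] at h1
  rw [one_mul, pushF_pull_mul, h1, mul_one]

lemma op_sub {B : SmProjVar k} (c d : P.H (A.prod B)) (x : P.H A) :
    op (c - d) x = op c x - op d x := by
  rw [op_apply, op_apply, op_apply, mul_sub, map_sub]

lemma op_ev {B : SmProjVar k} {c : P.H (A.prod B)} (hc : c ∈ P.ev _) {x : P.H A}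
    (hx : x ∈ P.ev A) : op c x ∈ P.ev B :=
  pushF_ev _ (P.ev_mul_ev _ _ _ (P.pull_ev _ _ hx) hc)

lemma op_od {B : SmProjVar k} {c : P.H (A.prod B)} (hc : c ∈ P.ev _) {x : P.H A}
    (hx : x ∈ P.od A) : op c x ∈ P.od B :=
  pushF_od _ (P.od_mul_ev _ _ _ (P.pull_od _ _ hx) hc)

/-- The subspace `N` of `H(V)` contains no non-zero totally isotropic subspace of pure parity which
is stable under the symmetries `G i`, the semilinear automorphisms and all algebraic
correspondences. -/
def NoIsotropic {ι : Type*} (G : ι → P.Sym) (N : Submodule Ω (P.H V)) : Prop :=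
  ∀ F : Submodule Ω (P.H V), F ≤ N → (F ≤ P.ev V ∨ F ≤ P.od V) →
    (∀ i, ∀ x ∈ F, (G i).g V x ∈ F) → (∀ σ, ∀ x ∈ F, P.s σ V x ∈ F) →
    (∀ c ∈ P.alg (V.prod V), ∀ x ∈ F, op c x ∈ F) →
    (∀ x ∈ F, ∀ y ∈ F, P.tr V (x * y) = 0) → F = ⊥

/-! ### numerically trivial classes on `A × V` give isotropic subspaces -/

/-- the class on `A × A'` of the composition of `κ` and the transpose of `κ'` -/
noncomputable def pairC {A A' V : SmProjVar k} (κ : P.H (A.prod V)) (κ' : P.H (A'.prod V)) :
    P.H (A.prod A') :=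
  P.pushF (fst (A.prod A') V)
    (P.pull (lift (fst (A.prod A') V ≫ fst A A') (snd (A.prod A') V)) κ *
      P.pull (lift (fst (A.prod A') V ≫ snd A A') (snd (A.prod A') V)) κ')

/-- Fubini -/
lemma tr_fubini {A A' V : SmProjVar k} (α : P.H (A.prod V)) (β : P.H (A'.prod V)) :
    P.tr _ (P.pull (lift (fst (A.prod A') V ≫ fst A A') (snd (A.prod A') V)) α *
      P.pull (lift (fst (A.prod A') V ≫ snd A A') (snd (A.prod A') V)) β) =
    P.tr V (P.pushF (snd A V) α * P.pushF (snd A' V) β) := by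
  induction α using ext_induction with
  | hext u v hu hv =>
    induction β using ext_induction with
    | hext u' v' hu' hv' =>
      rw [pushF_snd_ext, pushF_snd_ext, SPre.ext, SPre.ext, map_mul (P.pull _),
        map_mul (P.pull _), pull_pull, pull_pull, pull_pull, pull_pull, lift_fst, lift_snd,
        lift_fst, lift_snd, ← pull_pull, ← pull_pull, smul_mul_smul_comm, map_smul, smul_eq_mul]
      have key : ∀ s : Ω, P.pull (snd (A.prod A') V) v *
          P.pull (fst (A.prod A') V) (P.pull (snd A A') u') =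
          s • (P.pull (fst (A.prod A') V) (P.pull (snd A A') u') *
            P.pull (snd (A.prod A') V) v) →
          P.tr _ (P.pull (fst (A.prod A') V) (P.pull (fst A A') u) *
            P.pull (snd (A.prod A') V) v * (P.pull (fst (A.prod A') V) (P.pull (snd A A') u') *
            P.pull (snd (A.prod A') V) v')) =
          s * (P.tr A u * P.tr A' u' * P.tr V (v * v')) := by
        intro s hs
        have h1 : P.pull (fst (A.prod A') V) (P.pull (fst A A') u) *
            P.pull (snd (A.prod A') V) v * (P.pull (fst (A.prod A') V) (P.pull (snd A A') u') *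
            P.pull (snd (A.prod A') V) v') =
            s • (P.pull (fst (A.prod A') V) (P.pull (fst A A') u * P.pull (snd A A') u') *
              P.pull (snd (A.prod A') V) (v * v')) := by
          rw [mul_assoc, ← mul_assoc (P.pull (snd (A.prod A') V) v), hs, map_mul (P.pull _),
            map_mul (P.pull _)]
          simp only [smul_mul_assoc, mul_smul_comm, mul_assoc]
        rw [h1, map_smul, P.tr_prod, P.tr_prod, smul_eq_mul]
      rcases hu' with hu' | hu'
      · rw [key 1 (by
          rw [one_smul]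
          exact (P.ev_comm _ _ _ (P.pull_ev _ _ (P.pull_ev _ _ hu'))).symm), one_mul]
      · rcases hv with hv | hv
        · rw [key 1 (by rw [one_smul]; exact P.ev_comm _ _ _ (P.pull_ev _ _ hv)), one_mul]
        · rw [key (-1) (by
            rw [neg_one_smul]
            exact P.od_anti _ _ _ (P.pull_od _ _ hv) (P.pull_od _ _ (P.pull_od _ _ hu'))),
            P.tr_od A' u' hu']
          ring
    | hzero => simp only [map_zero, mul_zero]
    | hadd x y hx hy => rw [map_add, mul_add, map_add, hx, hy, map_add, mul_add, map_add]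
    | hsmul a x hx => rw [map_smul, mul_smul_comm, map_smul, hx, map_smul, mul_smul_comm, map_smul]
  | hzero => simp only [map_zero, zero_mul]
  | hadd x y hx hy => rw [map_add, add_mul, map_add, hx, hy, map_add, add_mul, map_add]
  | hsmul a x hx => rw [map_smul, smul_mul_assoc, map_smul, hx, map_smul, smul_mul_assoc, map_smul]

lemma tr_pairC {A A' V : SmProjVar k} {κ : P.H (A.prod V)} {κ' : P.H (A'.prod V)}
    (hκ : κ ∈ P.ev _) (hκ' : κ' ∈ P.ev _) (x : P.H A) (x' : P.H A') :
    P.tr _ (pairC κ κ' * P.ext A A' x x') = P.tr V (op κ x * op κ' x') := by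
  rw [op_apply, op_apply, ← tr_fubini, pairC, tr_pushF, SPre.ext, map_mul (P.pull _),
    map_mul (P.pull _), map_mul (P.pull _), pull_pull, pull_pull, pull_pull, pull_pull, lift_fst,
    lift_fst]
  congr 1
  have e1 := P.pull_ev (lift (fst (A.prod A') V ≫ fst A A') (snd (A.prod A') V)) _ hκ
  have e2 := P.pull_ev (lift (fst (A.prod A') V ≫ snd A A') (snd (A.prod A') V)) _ hκ'
  set a := P.pull (lift (fst (A.prod A') V ≫ fst A A') (snd (A.prod A') V)) κ
  set b := P.pull (lift (fst (A.prod A') V ≫ snd A A') (snd (A.prod A') V)) κ'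
  set c := P.pull (fst (A.prod A') V ≫ fst A A') x
  set d := P.pull (fst (A.prod A') V ≫ snd A A') x'
  calc a * b * (c * d) = a * (b * (c * d)) := by rw [mul_assoc]
    _ = a * (c * d * b) := by rw [P.ev_comm _ b _ e2]
    _ = (a * c) * (d * b) := by noncomm_ring
    _ = c * a * (d * b) := by rw [P.ev_comm _ a _ e1]

lemma tr_op_rad {A A' V : SmProjVar k} (hD : P.D (A.prod A')) {κ : P.H (A.prod V)}
    (hκ : κ ∈ P.alg _) {r : P.H (A'.prod V)} (hr : P.rad _ r) (x : P.H A) (x' : P.H A') :
    P.tr V (op κ x * op r x') = 0 := by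
  rw [← tr_pairC (P.alg_le_ev _ hκ) (P.alg_le_ev _ hr.1)]
  have h1 : P.rad (A.prod A') (pairC κ r) := by
    refine pushF_rad _ ?_
    have h2 : P.rad _ (P.pull (lift (fst (A.prod A') V ≫ snd A A') (snd (A.prod A') V)) r *
        P.pull (lift (fst (A.prod A') V ≫ fst A A') (snd (A.prod A') V)) κ) :=
      rad_mul (rad_pull _ hr) (P.pull_mem _ _ hκ)
    rwa [P.ev_comm _ _ _ (P.pull_ev _ _ (P.alg_le_ev _ hr.1))] at h2
  rw [hD _ h1, zero_mul, map_zero]

/-- the images of classes in `S` under numerically trivial correspondences -/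
noncomputable def radImage (P : SPre.{u, v, w, t} k K Ω) {ι : Type*} (A : ι → SmProjVar k)
    (V : SmProjVar k) (S : ∀ i, Submodule Ω (P.H (A i))) : Submodule Ω (P.H V) :=
  Submodule.span Ω {y | ∃ (i : ι) (r : P.H ((A i).prod V)) (x : P.H (A i)), P.rad _ r ∧ x ∈ S i ∧
    y = op r x}

lemma radImage_induction {ι : Type*} {A : ι → SmProjVar k} {S : ∀ i, Submodule Ω (P.H (A i))}
    {p : P.H V → Prop} (mem : ∀ i r, P.rad ((A i).prod V) r → ∀ x ∈ S i, p (op r x))
    (zero : p 0) (add : ∀ x y, p x → p y → p (x + y)) (smul : ∀ (a : Ω) x, p x → p (a • x))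
    {y : P.H V} (hy : y ∈ radImage P A V S) : p y := by
  unfold radImage at hy
  induction hy using Submodule.span_induction with
  | mem y hy =>
    obtain ⟨i, r, x, hr, hx, rfl⟩ := hy
    exact mem i r hr x hx
  | zero => exact zero
  | add x y _ _ hx hy => exact add x y hx hy
  | smul a x _ hx => exact smul a x hx

lemma comp_rad {A V : SmProjVar k} {r : P.H (A.prod V)} {c : P.H (V.prod V)} (hr : P.rad _ r)
    (hc : c ∈ P.alg _) : P.rad _ (comp r c) :=
  pushF_rad _ (rad_mul (rad_pull _ hr) (P.pull_mem _ _ hc))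

/-- if there are no isotropic subspaces, D holds for the products with `V` -/
theorem d_of_noIsotropic [CharZero Ω] {ι : Type*} (G : ι → P.Sym) {V : SmProjVar k}
    {ι' : Type*} (A : ι' → SmProjVar k) (hD : ∀ i j, P.D ((A i).prod (A j)))
    (hiso : NoIsotropic G (orth P (image P A V))) (i : ι') : P.D ((A i).prod V) := by
  have key : ∀ (S : ∀ B : SmProjVar k, Submodule Ω (P.H B)),
      (S = fun B => P.ev B) ∨ (S = fun B => P.od B) → radImage P A V (fun i => S (A i)) = ⊥ := by
    intro S hS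
    have hopS : ∀ (B C : SmProjVar k) (c : P.H (B.prod C)), c ∈ P.ev _ → ∀ x ∈ S B, op c x ∈ S C := by
      intro B C c hc x hx
      rcases hS with rfl | rfl
      · exact op_ev hc hx
      · exact op_od hc hx
    refine hiso _ ?_ ?_ ?_ ?_ ?_ ?_
    · intro y hy m hm
      refine radImage_induction (p := fun y => P.tr V (m * y) = 0) (fun j r hr x _ => ?_)
        (by rw [mul_zero, map_zero]) (fun a b ha hb => by rw [mul_add, map_add, ha, hb, add_zero])
        (fun a b hb => by rw [mul_smul_comm, map_smul, hb, smul_zero]) hy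
      refine image_induction (p := fun m => P.tr V (m * op r x) = 0) (fun i κ hκ z => ?_)
        (by rw [zero_mul, map_zero]) (fun a b ha hb => by rw [add_mul, map_add, ha, hb, add_zero])
        (fun a b hb => by rw [smul_mul_assoc, map_smul, hb, smul_zero]) hm
      exact tr_op_rad (hD i j) hκ hr z x
    · have h1 : ∀ B : Submodule Ω (P.H V), B = S V → radImage P A V (fun i => S (A i)) ≤ B := by
        rintro B rfl y hy
        exact radImage_induction (p := fun y => y ∈ S V)
          (fun j r hr x hx => hopS _ _ _ (P.alg_le_ev _ hr.1) x hx) (Submodule.zero_mem _)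
          (fun _ _ => Submodule.add_mem _) (fun _ _ => Submodule.smul_mem _ _) hy
      rcases hS with rfl | rfl
      · exact .inl (h1 _ rfl)
      · exact .inr (h1 _ rfl)
    · intro j y hy
      refine radImage_induction (p := fun y => (G j).g V y ∈ radImage P A V (fun i => S (A i)))
        (fun i r hr x hx => ?_) (by rw [map_zero]; exact Submodule.zero_mem _)
        (fun a b ha hb => by rw [map_add]; exact Submodule.add_mem _ ha hb)
        (fun a b hb => by rw [map_smul]; exact Submodule.smul_mem _ _ hb) hy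
      obtain ⟨l, -, hl⟩ := Sym.op (G j) (A i) V
      rw [hl]
      refine Submodule.smul_mem _ _ (Submodule.subset_span ⟨i, _, _, (G j).rad hr, ?_, rfl⟩)
      rcases hS with rfl | rfl
      · exact (Sym.ev_od (G j) (A i)).1 x hx
      · exact (Sym.ev_od (G j) (A i)).2 x hx
    · intro σ y hy
      refine radImage_induction (p := fun y => P.s σ V y ∈ radImage P A V (fun i => S (A i)))
        (fun i r hr x hx => ?_) (by rw [map_zero]; exact Submodule.zero_mem _)
        (fun a b ha hb => by rw [map_add]; exact Submodule.add_mem _ ha hb)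
        (fun a b hb => by rw [P.s_smul]; exact Submodule.smul_mem _ _ hb) hy
      have h1 : P.s σ V (op r x) = op (P.s σ _ r) (P.s σ _ x) := by
        rw [op_apply, op_apply, pushF_s, map_mul (P.s σ _), P.s_pull]
      rw [h1]
      refine Submodule.subset_span ⟨i, _, _, P.rad_s σ hr, ?_, rfl⟩
      rcases hS with rfl | rfl
      · exact P.s_ev σ _ x hx
      · exact P.s_od σ _ x hx
    · intro c hc y hy
      refine radImage_induction (p := fun y => op c y ∈ radImage P A V (fun i => S (A i)))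
        (fun i r hr x hx => ?_) (by rw [map_zero]; exact Submodule.zero_mem _)
        (fun a b ha hb => by rw [map_add]; exact Submodule.add_mem _ ha hb)
        (fun a b hb => by rw [map_smul]; exact Submodule.smul_mem _ _ hb) hy
      rw [← op_comp]
      exact Submodule.subset_span ⟨i, _, _, comp_rad hr hc, hx, rfl⟩
    · intro y hy z hz
      refine radImage_induction (p := fun z => P.tr V (y * z) = 0) (fun j r hr x _ => ?_)
        (by rw [mul_zero, map_zero]) (fun a b ha hb => by rw [mul_add, map_add, ha, hb, add_zero])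
        (fun a b hb => by rw [mul_smul_comm, map_smul, hb, smul_zero]) hz
      refine radImage_induction (p := fun y => P.tr V (y * op r x) = 0) (fun i κ hκ z _ => ?_)
        (by rw [zero_mul, map_zero]) (fun a b ha hb => by rw [add_mul, map_add, ha, hb, add_zero])
        (fun a b hb => by rw [smul_mul_assoc, map_smul, hb, smul_zero]) hy
      exact tr_op_rad (hD i j) hκ.1 hr z x
  intro r hr
  have hre := P.alg_le_ev _ hr.1
  refine op_inj hre (Submodule.zero_mem _) fun x => ?_
  rw [op_zero, LinearMap.zero_apply]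
  obtain ⟨a, ha, b, hb, rfl⟩ := P.exists_decomp _ x
  have h0 : op r a ∈ radImage P A V (fun i => P.ev (A i)) :=
    Submodule.subset_span ⟨i, r, a, hr, ha, rfl⟩
  have h1 : op r b ∈ radImage P A V (fun i => P.od (A i)) :=
    Submodule.subset_span ⟨i, r, b, hr, hb, rfl⟩
  rw [key _ (.inl rfl), Submodule.mem_bot] at h0
  rw [key _ (.inr rfl), Submodule.mem_bot] at h1
  rw [map_add, h0, h1, add_zero]

/-- If D holds for the products of the `A i` (retracts of powers of `X`) with `V`, an algebraic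
correspondence separates the even from the odd classes in the orthogonal complement `N` of the
image of the cohomology of the `A i`, and `N` contains no isotropic subspace which is stable
under everything, then the cohomology of `V` is generated by `X` and by anisotropic letters. -/
theorem span_rgen_residual [CharZero Ω] {ι : Type*} (G : ι → P.Sym) {X V : SmProjVar k}
    {ι' : Type*} (A : ι' → SmProjVar k) (hA : ∀ i, PowLike X (A i))
    (hD : ∀ i, P.D ((A i).prod V)) (hX : ∃ x : P.H X, P.Hom X x ∧ P.tr X x = 1)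
    (hpar : ∃ u ∈ P.alg (V.prod V), ∀ y ∈ orth P (image P A V),
      (y ∈ P.ev V → op u y = y) ∧ (y ∈ P.od V → op u y = 0))
    (hiso : NoIsotropic G (orth P (image P A V))) :
    Submodule.span Ω (rgen P (anisoLetters P G) X V) = ⊤ := by
  obtain ⟨q, hq, hq0, hq1, hq2, hsup⟩ := exists_projector A hD
  obtain ⟨u, hu, hupar⟩ := hpar
  set M := image P A V with hM
  set N := orth P M with hN
  have hMpar : ∀ y ∈ M, par P V y ∈ M := fun y hy => image_par A hy
  have hNpar : ∀ y ∈ N, par P V y ∈ N := fun y hy => par_mem_orth hMpar hy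
  -- a piece with the correct span is anisotropic
  have hpiece : ∀ (S : Submodule Ω (P.H V)), S = P.ev V ∨ S = P.od V →
      ∀ (n : ℕ) (e : Fin n → P.H V), Submodule.span Ω (Set.range e) = N ⊓ S → Aniso G V e := by
    intro S hS n e he
    have hmem : ∀ b, e b ∈ N ⊓ S := fun b => by
      rw [← he]; exact Submodule.subset_span ⟨b, rfl⟩
    have hop : ∀ c ∈ P.alg (V.prod V), ∀ y ∈ N ⊓ S, op c y ∈ N ⊓ S := by
      intro c hc y hy
      refine ⟨orth_op (fun c hc y hy => image_op A hc hy) hc hy.1, ?_⟩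
      rcases hS with rfl | rfl
      · exact op_ev (P.alg_le_ev _ hc) hy.2
      · exact op_od (P.alg_le_ev _ hc) hy.2
    refine ⟨fun i => exists_matrix_of_span (g := (G i).g V) fun b => ?_,
      fun σ => exists_matrix_of_span (g := P.s σ V) fun b => ?_, fun F hF h1 h2 h3 h4 => ?_⟩
    · rw [he]
      refine ⟨orth_sym (fun y hy => image_sym_symm A (G i) hy) (hmem b).1, ?_⟩
      rcases hS with rfl | rfl
      · exact (Sym.ev_od (G i) V).1 _ (hmem b).2
      · exact (Sym.ev_od (G i) V).2 _ (hmem b).2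
    · rw [he]
      refine ⟨orth_s (fun y hy => image_s_symm A σ hy) (hmem b).1, ?_⟩
      rcases hS with rfl | rfl
      · exact P.s_ev σ V _ (hmem b).2
      · exact P.s_od σ V _ (hmem b).2
    · rw [he] at hF
      refine hiso F (hF.trans inf_le_left) ?_ h1 h2 (fun c hc x hx => ?_) h4
      · rcases hS with rfl | rfl
        · exact .inl (hF.trans inf_le_right)
        · exact .inr (hF.trans inf_le_right)
      · refine h3 c hc (fun b => ?_) (fun b => ?_) x hx
        · rw [he]; exact hop c hc _ (hmem b)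
        · rw [he]; exact hop _ (P.pull_mem _ _ hc) _ (hmem b)
  -- the two pieces
  have hdec : ∀ y : P.H V, ∃ m ∈ M, ∃ y₀ ∈ N ⊓ P.ev V, ∃ y₁ ∈ N ⊓ P.od V, m + y₀ + y₁ = y := by
    intro y
    have hy : y ∈ M ⊔ N := by rw [hsup]; trivial
    obtain ⟨m, hm, z, hz, rfl⟩ := Submodule.mem_sup.mp hy
    obtain ⟨a, ha, b, hb, rfl⟩ := P.exists_decomp V z
    obtain ⟨ha', hb'⟩ := parts_mem hNpar ha hb hz
    exact ⟨m, hm, a, ⟨ha', ha⟩, b, ⟨hb', hb⟩, by rw [add_assoc]⟩
  have hMN : ∀ m ∈ M, ∀ y ∈ N, P.tr V (y * m) = 0 := by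
    intro m hm y hy
    rw [tr_par]
    exact hy _ (hMpar m hm)
  have h01 : ∀ a ∈ P.ev V, ∀ b ∈ P.od V, P.tr V (a * b) = 0 := fun a ha b hb =>
    P.tr_od V _ (P.ev_mul_od V _ _ ha hb)
  have h10 : ∀ a ∈ P.od V, ∀ b ∈ P.ev V, P.tr V (a * b) = 0 := fun a ha b hb =>
    P.tr_od V _ (P.od_mul_ev V _ _ ha hb)
  have hopu : ∀ m ∈ M, ∀ y₀ ∈ N ⊓ P.ev V, ∀ y₁ ∈ N ⊓ P.od V,
      op (comp q u) (m + y₀ + y₁) = y₀ := by
    intro m hm y₀ hy₀ y₁ hy₁
    have h1 : op q (m + y₀ + y₁) = y₀ + y₁ := by
      rw [map_add, map_add, hq0 m hm, hq1 y₀ hy₀.1, hq1 y₁ hy₁.1, zero_add]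
    rw [op_comp, h1, map_add, (hupar y₀ hy₀.1).1 hy₀.2, (hupar y₁ hy₁.1).2 hy₁.2, add_zero]
  have hopq : ∀ m ∈ M, ∀ y₀ ∈ N ⊓ P.ev V, ∀ y₁ ∈ N ⊓ P.od V,
      op (q - comp q u) (m + y₀ + y₁) = y₁ := by
    intro m hm y₀ hy₀ y₁ hy₁
    rw [op_sub, hopu m hm y₀ hy₀ y₁ hy₁, map_add, map_add, hq0 m hm, hq1 y₀ hy₀.1, hq1 y₁ hy₁.1,
      zero_add, add_sub_cancel_left]
  obtain ⟨n₀, e₀, B₀, he₀, hs₀⟩ := exists_piece' (N ⊓ P.ev V) (M ⊔ (N ⊓ P.od V)) (.inl inf_le_right)
    (by
      rw [eq_top_iff]
      intro y _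
      obtain ⟨m, hm, y₀, hy₀, y₁, hy₁, rfl⟩ := hdec y
      have : m + y₀ + y₁ = y₀ + (m + y₁) := by abel
      rw [this]
      exact Submodule.add_mem_sup hy₀ (Submodule.add_mem_sup hm hy₁)) (by
      intro y hy c hc
      obtain ⟨m, hm, y₁, hy₁, rfl⟩ := Submodule.mem_sup.mp hc
      rw [mul_add, map_add, hMN m hm y hy.1, h01 y hy.2 y₁ hy₁.2, add_zero])
    (comp_mem hq hu) (by
      intro y hy
      have := hopu 0 (Submodule.zero_mem _) y hy 0 (Submodule.zero_mem _)
      rwa [zero_add, add_zero] at this) (by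
      intro c hc
      obtain ⟨m, hm, y₁, hy₁, rfl⟩ := Submodule.mem_sup.mp hc
      have := hopu m hm 0 (Submodule.zero_mem _) y₁ hy₁
      rwa [add_zero] at this)
  obtain ⟨n₁, e₁, B₁, he₁, hs₁⟩ := exists_piece' (N ⊓ P.od V) (M ⊔ (N ⊓ P.ev V)) (.inr inf_le_right)
    (by
      rw [eq_top_iff]
      intro y _
      obtain ⟨m, hm, y₀, hy₀, y₁, hy₁, rfl⟩ := hdec y
      have : m + y₀ + y₁ = y₁ + (m + y₀) := by abel
      rw [this]
      exact Submodule.add_mem_sup hy₁ (Submodule.add_mem_sup hm hy₀)) (by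
      intro y hy c hc
      obtain ⟨m, hm, y₁, hy₁, rfl⟩ := Submodule.mem_sup.mp hc
      rw [mul_add, map_add, hMN m hm y hy.1, h10 y hy.2 y₁ hy₁.2, add_zero])
    (Submodule.sub_mem _ hq (comp_mem hq hu)) (by
      intro y hy
      have := hopq 0 (Submodule.zero_mem _) 0 (Submodule.zero_mem _) y hy
      rwa [zero_add, zero_add] at this) (by
      intro c hc
      obtain ⟨m, hm, y₀, hy₀, rfl⟩ := Submodule.mem_sup.mp hc
      have := hopq m hm y₀ hy₀ 0 (Submodule.zero_mem _)
      rwa [add_zero] at this)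
  have hL := isLetters_aniso (P := P) G
  rw [eq_top_iff]
  intro y _
  obtain ⟨m, hm, y₀, hy₀, y₁, hy₁, rfl⟩ := hdec y
  refine Submodule.add_mem _ (Submodule.add_mem _ ?_ ?_) ?_
  · refine image_induction (p := fun y => y ∈ Submodule.span Ω (rgen P (anisoLetters P G) X V))
      (fun i κ hκ x => op_mem_rgen (hA i) hκ x) (Submodule.zero_mem _)
      (fun _ _ => Submodule.add_mem _) (fun _ _ => Submodule.smul_mem _ _) hm
  · have h1 : Submodule.span Ω (Set.range e₀) ≤
        Submodule.span Ω (rgen P (anisoLetters P G) X V) := by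
      refine Submodule.span_mono ?_
      rintro _ ⟨b, rfl⟩
      refine letter_mem_rgen hL hX ⟨V, n₀, e₀, B₀, 𝟙 _, b, he₀, hpiece _ (.inl rfl) n₀ e₀ hs₀, ?_⟩
      rw [pull_id_apply]
    exact h1 (by rw [hs₀]; exact hy₀)
  · have h1 : Submodule.span Ω (Set.range e₁) ≤
        Submodule.span Ω (rgen P (anisoLetters P G) X V) := by
      refine Submodule.span_mono ?_
      rintro _ ⟨b, rfl⟩
      refine letter_mem_rgen hL hX ⟨V, n₁, e₁, B₁, 𝟙 _, b, he₁, hpiece _ (.inr rfl) n₁ e₁ hs₁, ?_⟩
      rw [pull_id_apply]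
    exact h1 (by rw [hs₁]; exact hy₁)

/-- the cohomology of `V` is generated by the powers of `X` and anisotropic letters -/
theorem span_rgen_of_noIsotropic [CharZero Ω] {ι : Type*} (G : ι → P.Sym) {X V : SmProjVar k}
    (hXD : P.DP X) (hX : ∃ x : P.H X, P.Hom X x ∧ P.tr X x = 1)
    (hpar : ∃ u ∈ P.alg (V.prod V), ∀ y ∈ orth P (image P (fun n => X.selfProd n) V),
      (y ∈ P.ev V → op u y = y) ∧ (y ∈ P.od V → op u y = 0))
    (hiso : NoIsotropic G (orth P (image P (fun n => X.selfProd n) V))) :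
    Submodule.span Ω (rgen P (anisoLetters P G) X V) = ⊤ :=
  span_rgen_residual G (fun n => X.selfProd n) (fun n => PowLike.pow X n)
    (d_of_noIsotropic G (fun n => X.selfProd n)
      (fun i j => (hXD (i + j + 1)).retract (Retract.pow_prod_pow X i j)) hiso) hX hpar hiso

/-- **D** for the powers of `X × V` -/
theorem DP_prod_of_noIsotropic [CharZero Ω] {ι : Type*} (G : ι → P.Sym) {X V : SmProjVar k}
    (hXD : P.DP X) (hX : ∃ x : P.H X, P.Hom X x ∧ P.tr X x = 1)
    (hpar : ∃ u ∈ P.alg (V.prod V), ∀ y ∈ orth P (image P (fun n => X.selfProd n) V),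
      (y ∈ P.ev V → op u y = y) ∧ (y ∈ P.od V → op u y = 0))
    (hiso : NoIsotropic G (orth P (image P (fun n => X.selfProd n) V))) : P.DP (X.prod V) :=
  DP_of_span (isLetters_aniso G) hXD (span_rgen_of_noIsotropic G hXD hX hpar hiso)

/-- **D** for the powers of varieties dominated by the powers of `X` -/
theorem DP_of_image_eq_top [CharZero Ω] {X Y : SmProjVar k} (hX : P.DP X)
    (h : image P (fun n => X.selfProd n) Y = ⊤) : P.DP Y := fun n =>
  D_of_span (isLetters_aniso (fun i : Empty => i.elim)) hX (span_rgen_pow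
    (isLetters_aniso (fun i : Empty => i.elim)) (by
    rw [eq_top_iff, ← h]
    intro y hy
    exact image_induction (p := fun y => y ∈ Submodule.span Ω
        (rgen P (anisoLetters P (fun i : Empty => i.elim)) X Y))
      (fun i κ hκ x => op_mem_rgen (PowLike.pow X i) hκ x) (Submodule.zero_mem _)
      (fun _ _ => Submodule.add_mem _) (fun _ _ => Submodule.smul_mem _ _) hy) n)

end Pool.Agent.Helper11.Iso
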