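import Mathlib
import Pool.Agent.Helper10.BaseChange

/-!
# Subspaces which are stable under the automorphisms of the field of coefficients
-/

universe u v w t

open CategoryTheory TensorProduct Finset

namespace Pool.Agent.Helper11.Iso

open Pool.Agent.Helper10

variable {K : Type v} [Field K] {Ω : Type t} [Field Ω] [Algebra K Ω]

/-- the fixed field of the automorphisms of `Ω` over `K` is `K` -/
def FixedField (K : Type v) [Field K] (Ω : Type t) [Field Ω] [Algebra K Ω] : Prop :=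
  ∀ a : Ω, (∀ σ : Ω ≃ₐ[K] Ω, σ a = a) → ∃ b : K, algebraMap K Ω b = a

/-- a non-zero stable subspace contains a non-zero rational vector -/
lemma exists_rat_vector (hΩ : FixedField K Ω) {ι : Type*} [Fintype ι] (S : Submodule Ω (ι → Ω))
    (hS : ∀ σ : Ω ≃ₐ[K] Ω, ∀ a ∈ S, (fun j => σ (a j)) ∈ S) (h : S ≠ ⊥) :
    ∃ b : ι → K, (fun j => algebraMap K Ω (b j)) ∈ S ∧ b ≠ 0 := by
  classical
  obtain ⟨a₀, ha₀, ha₀'⟩ := (Submodule.ne_bot_iff S).mp h
  -- a non-zero vector with minimal support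
  let p : ℕ → Prop := fun n => ∃ a ∈ S, a ≠ 0 ∧ (univ.filter fun j => a j ≠ 0).card = n
  have hp : ∃ n, p n := ⟨_, a₀, ha₀, ha₀', rfl⟩
  obtain ⟨a, ha, ha0, hcard⟩ := Nat.find_spec hp
  have hmin : ∀ a' ∈ S, (univ.filter fun j => a' j ≠ 0).card < Nat.find hp → a' = 0 := by
    intro a' ha' hlt
    by_contra hne
    exact Nat.find_min hp hlt ⟨a', ha', hne, rfl⟩
  obtain ⟨j₀, hj₀⟩ : ∃ j, a j ≠ 0 := by
    by_contra hcon
    push Not at hcon
    exact ha0 (funext hcon)
  set a' : ι → Ω := (a j₀)⁻¹ • a with ha'def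
  have ha' : a' ∈ S := S.smul_mem _ ha
  have ha'1 : a' j₀ = 1 := by
    rw [ha'def, Pi.smul_apply, smul_eq_mul, inv_mul_cancel₀ hj₀]
  have hsupp : ∀ j, a j = 0 → a' j = 0 := fun j hj => by
    rw [ha'def, Pi.smul_apply, hj, smul_zero]
  have hfix : ∀ (σ : Ω ≃ₐ[K] Ω) (j : ι), σ (a' j) = a' j := by
    intro σ j
    have h1 : (fun j => σ (a' j)) - a' = 0 := by
      refine hmin _ (S.sub_mem (hS σ a' ha') ha') ?_
      rw [← hcard]
      refine card_lt_card ⟨fun j hj => ?_, fun hsub => ?_⟩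
      · simp only [mem_filter, mem_univ, true_and, Pi.sub_apply] at hj ⊢
        intro h0
        exact hj (by rw [hsupp j h0, map_zero, sub_zero])
      · have h2 := hsub (mem_filter.mpr ⟨mem_univ j₀, hj₀⟩)
        simp only [mem_filter, mem_univ, true_and, Pi.sub_apply] at h2
        exact h2 (by rw [ha'1, map_one, sub_self])
    have h2 := congrFun h1 j
    rw [Pi.sub_apply, Pi.zero_apply, sub_eq_zero] at h2
    exact h2
  choose b hb using fun j => hΩ (a' j) fun σ => hfix σ j
  refine ⟨b, ?_, fun h0 => ?_⟩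
  · have : (fun j => algebraMap K Ω (b j)) = a' := funext hb
    rw [this]; exact ha'
  · have h1 := hb j₀
    rw [h0, Pi.zero_apply, map_zero, ha'1] at h1
    exact zero_ne_one h1

variable {V : Type w} [AddCommGroup V] [Module K V]

/-- the rational part of a subspace -/
def ratPart (F : Submodule Ω (Ω ⊗[K] V)) : Submodule K V where
  carrier := {x | (1 : Ω) ⊗ₜ[K] x ∈ F}
  add_mem' := fun {x y} hx hy => by
    change (1 : Ω) ⊗ₜ[K] (x + y) ∈ F
    rw [TensorProduct.tmul_add]; exact F.add_mem hx hy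
  zero_mem' := by
    change (1 : Ω) ⊗ₜ[K] (0 : V) ∈ F
    rw [TensorProduct.tmul_zero]; exact F.zero_mem
  smul_mem' := fun a x hx => by
    change (1 : Ω) ⊗ₜ[K] (a • x) ∈ F
    have : (1 : Ω) ⊗ₜ[K] (a • x) = algebraMap K Ω a • ((1 : Ω) ⊗ₜ[K] x) := by
      rw [TensorProduct.tmul_smul, algebraMap_smul]
    rw [this]
    exact F.smul_mem _ hx

lemma mem_ratPart {F : Submodule Ω (Ω ⊗[K] V)} {x : V} :
    x ∈ ratPart F ↔ (1 : Ω) ⊗ₜ[K] x ∈ F := Iff.rfl

/-- Galois descent for subspaces -/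
theorem baseChange_ratPart [Module.Finite K V] (hΩ : FixedField K Ω)
    {s : (Ω ≃ₐ[K] Ω) → Ω ⊗[K] V → Ω ⊗[K] V} (hadd : ∀ σ x y, s σ (x + y) = s σ x + s σ y)
    (htmul : ∀ σ (a : Ω) (x : V), s σ (a ⊗ₜ[K] x) = σ a ⊗ₜ[K] x) {F : Submodule Ω (Ω ⊗[K] V)}
    (hF : ∀ σ, ∀ x ∈ F, s σ x ∈ F) : (ratPart F).baseChange Ω = F := by
  classical
  have hle : (ratPart F).baseChange Ω ≤ F := by
    intro x hx
    exact baseChange_induction _ (p := fun x => x ∈ F) (fun y hy => hy) F.zero_mem
      (fun _ _ => F.add_mem) (fun a _ => F.smul_mem a) hx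
  refine le_antisymm hle fun x hx => ?_
  obtain ⟨C, hC⟩ := Submodule.exists_isCompl (ratPart F)
  have hx' : x ∈ (ratPart F).baseChange Ω ⊔ C.baseChange Ω := by
    rw [baseChange_sup_eq_top _ _ hC.sup_eq_top]; trivial
  obtain ⟨y, hy, z, hz, rfl⟩ := Submodule.mem_sup.mp hx'
  have hzF : z ∈ F := by
    have := F.sub_mem hx (hle hy)
    rwa [add_sub_cancel_left] at this
  -- the subspace of coordinates
  let c := Module.finBasis K C
  let φ : (Fin (Module.finrank K C) → Ω) →ₗ[Ω] Ω ⊗[K] V :=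
    { toFun := fun a => ∑ j, a j ⊗ₜ[K] (c j : V)
      map_add' := fun a b => by
        rw [← sum_add_distrib]
        exact sum_congr rfl fun j _ => by rw [Pi.add_apply, TensorProduct.add_tmul]
      map_smul' := fun r a => by
        rw [RingHom.id_apply, smul_sum]
        exact sum_congr rfl fun j _ => by rw [Pi.smul_apply, TensorProduct.smul_tmul'] }
  have hφ : ∀ a, φ a = ∑ j, a j ⊗ₜ[K] (c j : V) := fun a => rfl
  have hzφ : ∃ a, φ a = z := by
    refine baseChange_induction _ (p := fun z => ∃ a, φ a = z) ?_ ⟨0, map_zero _⟩ ?_ ?_ hz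
    · intro w hw
      refine ⟨fun j => algebraMap K Ω (c.repr ⟨w, hw⟩ j), ?_⟩
      have h1 := congrArg (fun w : C => (1 : Ω) ⊗ₜ[K] (w : V)) (c.sum_repr ⟨w, hw⟩)
      simp only [Submodule.coe_sum, TensorProduct.tmul_sum] at h1
      rw [← h1, hφ]
      refine sum_congr rfl fun j _ => ?_
      rw [Submodule.coe_smul, TensorProduct.tmul_smul, TensorProduct.smul_tmul',
        Algebra.algebraMap_eq_smul_one]
    · rintro _ _ ⟨a, rfl⟩ ⟨b, rfl⟩
      exact ⟨a + b, map_add _ _ _⟩
    · rintro r _ ⟨a, rfl⟩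
      exact ⟨r • a, map_smul _ _ _⟩
  obtain ⟨a, rfl⟩ := hzφ
  have hbot : F.comap φ = ⊥ := by
    by_contra hne
    obtain ⟨b, hb, hb0⟩ := exists_rat_vector hΩ (F.comap φ) (fun σ a ha => by
      change φ _ ∈ F
      have h1 : φ (fun j => σ (a j)) = s σ (φ a) := by
        have h2 : ∀ t : Finset (Fin (Module.finrank K C)), s σ (∑ j ∈ t, a j ⊗ₜ[K] (c j : V)) =
            ∑ j ∈ t, σ (a j) ⊗ₜ[K] (c j : V) := by
          intro t
          induction t using Finset.induction_on with
          | empty =>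
            rw [sum_empty, sum_empty]
            have := htmul σ 0 0
            rwa [TensorProduct.zero_tmul, map_zero, TensorProduct.zero_tmul] at this
          | insert j t hj ih => rw [sum_insert hj, sum_insert hj, hadd, ih, htmul]
        exact (h2 univ).symm
      rw [h1]
      exact hF σ _ ha) hne
    have h1 : φ (fun j => algebraMap K Ω (b j)) = (1 : Ω) ⊗ₜ[K] (∑ j, b j • (c j : V)) := by
      rw [TensorProduct.tmul_sum, hφ]
      refine sum_congr rfl fun j _ => ?_
      rw [TensorProduct.tmul_smul, TensorProduct.smul_tmul', Algebra.algebraMap_eq_smul_one]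
    have h2 : ∑ j, b j • (c j : V) ∈ ratPart F := by
      rw [mem_ratPart, ← h1]; exact hb
    have h3 : ∑ j, b j • (c j : V) = ((∑ j, b j • c j : C) : V) := by
      rw [Submodule.coe_sum]; rfl
    have h4 : ∑ j, b j • (c j : V) = 0 := by
      have := hC.disjoint.le_bot ⟨h2, by rw [h3]; exact Subtype.mem _⟩
      exact (Submodule.mem_bot K).mp this
    rw [h3] at h4
    have h5 : ∑ j, b j • c j = 0 := Subtype.ext h4
    exact hb0 (funext fun j => Fintype.linearIndependent_iff.mp c.linearIndependent b h5 j)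
  have ha : a ∈ F.comap φ := hzF
  rw [hbot, Submodule.mem_bot] at ha
  rw [ha, map_zero, add_zero]
  exact hy

end Pool.Agent.Helper11.Iso
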