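import Mathlib
import Pool.Agent.Helper11.Iso.Residual

/-!
# Anisotropic pieces of the residual part of the cohomology
-/

universe u v w t

open CategoryTheory Finset Matrix

namespace Pool.Agent.Helper11.Iso

open Pool.Agent.Helper10 SmProjVar SPre Pool.Agent.Helper10.GIT

variable {k : Type u} [Field k] {K : Type t} [Field K] {Ω : Type v} [Field Ω] [Algebra K Ω]
  {P : SPre.{u, v, w, t} k K Ω} {V : SmProjVar k}

/-- The subspace `E` of `H(V)` contains no non-zero totally isotropic subspace which is stable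
under the symmetries `G i`, the semilinear automorphisms and the algebraic correspondences which
map `E` to `E`. -/
def NoIsotropicIn {ι : Type*} (G : ι → P.Sym) (E : Submodule Ω (P.H V)) : Prop :=
  ∀ F : Submodule Ω (P.H V), F ≤ E →
    (∀ i, ∀ x ∈ F, (G i).g V x ∈ F) → (∀ σ, ∀ x ∈ F, P.s σ V x ∈ F) →
    (∀ c ∈ P.alg (V.prod V), (∀ y ∈ E, op c y ∈ E) → ∀ x ∈ F, op c x ∈ F) →
    (∀ x ∈ F, ∀ y ∈ F, P.tr V (x * y) = 0) → F = ⊥

/-- a correspondence with cube zero has trace zero -/
lemma tr_eq_zero_of_cube {c : P.H (V.prod V)} (hc : c ∈ P.ev _)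
    (h : ∀ x, op c (op c (op c x)) = 0) : P.tr _ (c * delta P V) = 0 := by
  have h1 : (op c ∘ₗ par P V) ^ 3 = 0 := by
    ext x
    rw [pow_succ, sq, Module.End.mul_apply, Module.End.mul_apply, LinearMap.comp_apply,
      LinearMap.comp_apply, LinearMap.comp_apply, ← op_par hc, par_par, h, LinearMap.zero_apply]
  have h2 := (LinearMap.isNilpotent_trace_of_isNilpotent (⟨3, h1⟩ : IsNilpotent _)).eq_zero
  rw [trace_op] at h2
  rw [delta, tr_mul_pushF, mul_one, h2]

/-- the images of numerically trivial correspondences -/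
noncomputable abbrev radIm (P : SPre.{u, v, w, t} k K Ω) {ι : Type*} (A : ι → SmProjVar k)
    (V : SmProjVar k) : Submodule Ω (P.H V) := radImage P A V fun _ => ⊤

lemma op_mem_radIm {ι : Type*} (A : ι → SmProjVar k) {i : ι} {r : P.H ((A i).prod V)}
    (hr : P.rad _ r) (x : P.H (A i)) : op r x ∈ radIm P A V :=
  Submodule.subset_span ⟨i, r, x, hr, trivial, rfl⟩

lemma radIm_le {ι : Type*} {A : ι → SmProjVar k} (hD : ∀ i j, P.D ((A i).prod (A j))) :
    radIm P A V ≤ orth P (image P A V) := by
  intro y hy m hm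
  refine radImage_induction (p := fun y => P.tr V (m * y) = 0) (fun j r hr x _ => ?_)
    (by rw [mul_zero, map_zero]) (fun a b ha hb => by rw [mul_add, map_add, ha, hb, add_zero])
    (fun a b hb => by rw [mul_smul_comm, map_smul, hb, smul_zero]) hy
  refine image_induction (p := fun m => P.tr V (m * op r x) = 0) (fun i κ hκ z => ?_)
    (by rw [zero_mul, map_zero]) (fun a b ha hb => by rw [add_mul, map_add, ha, hb, add_zero])
    (fun a b hb => by rw [smul_mul_assoc, map_smul, hb, smul_zero]) hm
  exact tr_op_rad (hD i j) hκ hr z x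

lemma radIm_isotropic {ι : Type*} {A : ι → SmProjVar k} (hD : ∀ i j, P.D ((A i).prod (A j)))
    {y z : P.H V} (hy : y ∈ radIm P A V) (hz : z ∈ radIm P A V) : P.tr V (y * z) = 0 := by
  refine radImage_induction (p := fun z => P.tr V (y * z) = 0) (fun j r hr x _ => ?_)
    (by rw [mul_zero, map_zero]) (fun a b ha hb => by rw [mul_add, map_add, ha, hb, add_zero])
    (fun a b hb => by rw [mul_smul_comm, map_smul, hb, smul_zero]) hz
  refine radImage_induction (p := fun y => P.tr V (y * op r x) = 0) (fun i κ hκ z _ => ?_)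
    (by rw [zero_mul, map_zero]) (fun a b ha hb => by rw [add_mul, map_add, ha, hb, add_zero])
    (fun a b hb => by rw [smul_mul_assoc, map_smul, hb, smul_zero]) hy
  exact tr_op_rad (hD i j) hκ.1 hr z x

lemma radIm_op {ι : Type*} {A : ι → SmProjVar k} {c : P.H (V.prod V)} (hc : c ∈ P.alg _)
    {y : P.H V} (hy : y ∈ radIm P A V) : op c y ∈ radIm P A V := by
  refine radImage_induction (p := fun y => op c y ∈ radIm P A V)
    (fun i r hr x _ => ?_) (by rw [map_zero]; exact Submodule.zero_mem _)
    (fun a b ha hb => by rw [map_add]; exact Submodule.add_mem _ ha hb)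
    (fun a b hb => by rw [map_smul]; exact Submodule.smul_mem _ _ hb) hy
  rw [← op_comp]
  exact op_mem_radIm A (comp_rad hr hc) x

lemma radIm_sym {ι : Type*} {A : ι → SmProjVar k} (γ : P.Sym)
    {y : P.H V} (hy : y ∈ radIm P A V) : γ.g V y ∈ radIm P A V := by
  refine radImage_induction (p := fun y => γ.g V y ∈ radIm P A V)
    (fun i r hr x _ => ?_) (by rw [map_zero]; exact Submodule.zero_mem _)
    (fun a b ha hb => by rw [map_add]; exact Submodule.add_mem _ ha hb)
    (fun a b hb => by rw [map_smul]; exact Submodule.smul_mem _ _ hb) hy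
  obtain ⟨l, -, hl⟩ := Sym.op γ (A i) V
  rw [hl]
  exact Submodule.smul_mem _ _ (op_mem_radIm A (γ.rad hr) _)

lemma radIm_s {ι : Type*} {A : ι → SmProjVar k} (σ : Ω ≃ₐ[K] Ω)
    {y : P.H V} (hy : y ∈ radIm P A V) : P.s σ V y ∈ radIm P A V := by
  refine radImage_induction (p := fun y => P.s σ V y ∈ radIm P A V)
    (fun i r hr x _ => ?_) (by rw [map_zero]; exact Submodule.zero_mem _)
    (fun a b ha hb => by rw [map_add]; exact Submodule.add_mem _ ha hb)
    (fun a b hb => by rw [P.s_smul]; exact Submodule.smul_mem _ _ hb) hy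
  have h1 : P.s σ V (op r x) = op (P.s σ _ r) (P.s σ _ x) := by
    rw [op_apply, op_apply, pushF_s, map_mul (P.s σ _), P.s_pull]
  rw [h1]
  exact op_mem_radIm A (P.rad_s σ hr) _

/-- elements of `starSpan` kill the residual classes -/
lemma op_starSpan_orth {ι : Type*} (A : ι → SmProjVar k) {c : P.H (V.prod V)}
    (hc : c ∈ starSpan P A V) {y : P.H V} (hy : y ∈ orth P (image P A V)) : op c y = 0 := by
  unfold starSpan at hc
  induction hc using Submodule.span_induction with
  | mem c hc =>
    obtain ⟨i, κ, κ', hκ, hκ', rfl⟩ := hc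
    rw [op_star, opT_eq_zero (P.alg_le_ev _ hκ)
      (fun x => hy _ (Submodule.subset_span ⟨i, κ, x, hκ, rfl⟩)), map_zero]
  | zero => rw [op_zero, LinearMap.zero_apply]
  | add c d _ _ hc hd => rw [op_add, LinearMap.add_apply, hc, hd, add_zero]
  | smul a c _ hc => rw [op_smul, LinearMap.smul_apply, hc, smul_zero]

/-- the class of the projector onto the image, without D for the products with `V` -/
theorem exists_rep' {ι : Type*} (A : ι → SmProjVar k) (hD : ∀ i j, P.D ((A i).prod (A j))) :
    ∃ p ∈ starSpan P A V, ∀ c ∈ starSpan P A V, P.tr _ (c * p) = P.tr _ (c * delta P V) := by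
  let C := starSpan P A V
  let φ : C →ₗ[Ω] Module.Dual Ω C :=
    LinearMap.mk₂ Ω (fun c c' => P.tr _ ((c : P.H (V.prod V)) * (c' : P.H (V.prod V))))
      (fun a b c => by rw [Submodule.coe_add, add_mul, map_add])
      (fun a b c => by rw [Submodule.coe_smul, smul_mul_assoc, map_smul])
      (fun a b c => by rw [Submodule.coe_add, mul_add, map_add])
      (fun a b c => by rw [Submodule.coe_smul, mul_smul_comm, map_smul])
  let l : Module.Dual Ω C :=
    { toFun := fun c => P.tr _ ((c : P.H (V.prod V)) * delta P V)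
      map_add' := fun a b => by rw [Submodule.coe_add, add_mul, map_add]
      map_smul' := fun a b => by
        rw [Submodule.coe_smul, smul_mul_assoc, map_smul, RingHom.id_apply] }
  obtain ⟨p, hp⟩ := exists_rep_of_rad φ l (by
    rintro ⟨c, hc⟩ h
    have hcev := P.alg_le_ev _ (starSpan_le A hc)
    refine tr_eq_zero_of_cube hcev ?_
    have h1 : ∀ i, ∀ κ ∈ P.alg ((A i).prod V), P.rad _ (comp κ c) := by
      intro i κ hκ
      refine ⟨comp_mem hκ (starSpan_le A hc), fun κ' hκ' => ?_⟩
      rw [tr_comp hcev, ← P.ev_comm _ _ _ hcev]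
      exact h ⟨_, Submodule.subset_span ⟨i, κ, κ', hκ, hκ', rfl⟩⟩
    have h2 : ∀ y ∈ image P A V, op c y ∈ radIm P A V := by
      intro y hy
      refine image_induction (p := fun y => op c y ∈ radIm P A V) (fun i κ hκ x => ?_)
        (by rw [map_zero]; exact Submodule.zero_mem _)
        (fun a b ha hb => by rw [map_add]; exact Submodule.add_mem _ ha hb)
        (fun a b hb => by rw [map_smul]; exact Submodule.smul_mem _ _ hb) hy
      rw [← op_comp]
      exact op_mem_radIm A (h1 i κ hκ) x
    exact fun x => op_starSpan_orth A hc (radIm_le hD (h2 _ (op_mem_image A hc x))))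
  exact ⟨p, p.2, fun c hc => hp ⟨c, hc⟩⟩

/-- transposition, the other way -/
lemma tr_swap_op {c : P.H (V.prod V)} (hc : c ∈ P.ev _) (x y : P.H V) :
    P.tr V (x * op (P.pull (swap V) c) y) = P.tr V (op c x * y) := by
  rw [tr_op_swap (P.pull_ev _ _ hc), pull_pull, swap_swap, pull_id_apply]

/-- **Anisotropic pieces of the residual part.** Let `E` be a subspace of the residual part of
`H(V)`, stable under all symmetries, without isotropic subspaces, and such that some algebraic
correspondence acts on the residual part as the orthogonal projector to `E`. Then `E` is spanned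
by an anisotropic piece. -/
theorem exists_piece_rel {ι : Type*} (G : ι → P.Sym) {ι' : Type*} (A : ι' → SmProjVar k)
    (hD : ∀ i j, P.D ((A i).prod (A j))) (E : Submodule Ω (P.H V))
    (hEN : E ≤ orth P (image P A V)) (hE : E ≤ P.ev V ∨ E ≤ P.od V)
    (hEG : ∀ i, ∀ x ∈ E, (G i).g V x ∈ E) (hEs : ∀ σ, ∀ x ∈ E, P.s σ V x ∈ E)
    {u : P.H (V.prod V)} (hu : u ∈ P.alg _)
    (huE : ∀ y ∈ orth P (image P A V), op u y ∈ E)
    (hu1 : ∀ y ∈ orth P (image P A V), ∀ x ∈ E, P.tr V (x * op u y) = P.tr V (x * y))
    (hiso : NoIsotropicIn G E) :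
    ∃ (n : ℕ) (e : Fin n → P.H V) (B : Matrix (Fin n) (Fin n) Ω),
      Piece P V n e B ∧ Aniso G V e ∧ Submodule.span Ω (Set.range e) = E := by
  have hue := P.alg_le_ev _ hu
  -- commutation in traces
  have hcomm : ∀ x ∈ E, ∀ y, P.tr V (x * y) = 0 ↔ P.tr V (y * x) = 0 := by
    intro x hx y
    rw [tr_par y x]
    rcases hE with h | h
    · rw [par_ev (h hx)]
    · rw [par_od (h hx), neg_mul, map_neg, neg_eq_zero]
  -- `E` is non-degenerate
  have hnd : ∀ z ∈ E, (∀ x ∈ E, P.tr V (x * z) = 0) → z = 0 := by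
    have h1 : E ⊓ orth P E = ⊥ := by
      refine hiso _ inf_le_left (fun i x hx => ⟨hEG i x hx.1, ?_⟩) (fun σ x hx => ⟨hEs σ x hx.1, ?_⟩)
        (fun c hc hcE x hx => ⟨hcE x hx.1, ?_⟩) (fun x hx y hy => hy.2 x hx.1)
      · -- symmetries: `E` is mapped onto itself
        intro m hm
        obtain ⟨c, hc0, hc⟩ := (G i).tr V
        have hsurj : ∃ m' ∈ E, (G i).g V m' = m := by
          let φ : E →ₗ[Ω] E := ((G i).g V).toLinearMap.restrict fun z hz => hEG i z hz
          have hinj : Function.Injective φ := by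
            intro a b hab
            exact Subtype.ext (((G i).g V).injective (congrArg Subtype.val hab))
          obtain ⟨m', hm'⟩ := (LinearMap.injective_iff_surjective.mp hinj) ⟨m, hm⟩
          exact ⟨m', m'.2, congrArg Subtype.val hm'⟩
        obtain ⟨m', hm', rfl⟩ := hsurj
        rw [← map_mul ((G i).g V), hc, hx.2 m' hm', mul_zero]
      · intro m hm
        -- the semilinear automorphism maps `E` onto itself
        obtain ⟨m', hm', rfl⟩ : ∃ m' ∈ E, P.s σ V m' = m := by
          by_contra hcon
          push Not at hcon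
          -- dimension count
          have hb := Module.finBasis Ω E
          have hli : LinearIndependent Ω (fun j => P.s σ V (hb j : P.H V)) := by
            rw [Fintype.linearIndependent_iff]
            intro g hg j
            have h2 : P.s σ V (∑ j, σ.symm (g j) • (hb j : P.H V)) = 0 := by
              rw [map_sum, ← hg]
              refine sum_congr rfl fun j _ => ?_
              rw [P.s_smul, AlgEquiv.apply_symm_apply]
            have h3 : ∑ j, σ.symm (g j) • (hb j : P.H V) = 0 := by
              rwa [map_eq_zero_iff _ (P.s σ V).injective] at h2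
            have h4 : ∑ j, σ.symm (g j) • hb j = 0 := by
              apply Subtype.ext
              rw [Submodule.coe_sum]
              exact h3
            have h5 := Fintype.linearIndependent_iff.mp hb.linearIndependent _ h4 j
            rwa [map_eq_zero_iff _ σ.symm.injective] at h5
          have hle : Submodule.span Ω (Set.range fun j => P.s σ V (hb j : P.H V)) ≤ E := by
            rw [Submodule.span_le]
            rintro _ ⟨j, rfl⟩
            exact hEs σ _ (hb j).2
          have heq : Submodule.span Ω (Set.range fun j => P.s σ V (hb j : P.H V)) = E := by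
            refine Submodule.eq_of_le_of_finrank_eq hle ?_
            rw [finrank_span_eq_card hli, Fintype.card_fin]
          have hm2 : m ∈ Submodule.span Ω (Set.range fun j => P.s σ V (hb j : P.H V)) := by
            rw [heq]; exact hm
          obtain ⟨g, hg⟩ := (Submodule.mem_span_range_iff_exists_fun Ω).mp hm2
          refine hcon (∑ j, σ.symm (g j) • (hb j : P.H V))
            (Submodule.sum_mem _ fun j _ => Submodule.smul_mem _ _ (hb j).2) ?_
          rw [map_sum, ← hg]
          refine sum_congr rfl fun j _ => ?_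
          rw [P.s_smul, AlgEquiv.apply_symm_apply]
        rw [← map_mul (P.s σ V), P.tr_s, hx.2 m' hm', map_zero]
      · intro m hm
        have hN : op (P.pull (swap V) c) m ∈ orth P (image P A V) :=
          orth_op (fun c hc y hy => image_op A hc hy) (P.pull_mem _ _ hc) (hEN hm)
        rw [tr_op_swap (P.alg_le_ev _ hc), ← hcomm x hx.1, ← hu1 _ hN x hx.1, hcomm x hx.1]
        exact hx.2 _ (huE _ hN)
    intro z hz h2
    have h3 : z ∈ E ⊓ orth P E := ⟨hz, h2⟩
    rwa [h1, Submodule.mem_bot] at h3
  have hu2 : ∀ x ∈ E, op u x = x := by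
    intro x hx
    rw [← sub_eq_zero]
    refine hnd _ (E.sub_mem (huE x (hEN hx)) hx) fun y hy => ?_
    rw [mul_sub, map_sub, hu1 x (hEN hx) y hy, sub_self]
  -- the images of numerically trivial correspondences are killed by `u`
  have hrad : ∀ z ∈ radIm P A V, op u z = 0 := by
    have h1 : E ⊓ radIm P A V = ⊥ :=
      hiso _ inf_le_left (fun i x hx => ⟨hEG i x hx.1, radIm_sym (G i) hx.2⟩)
        (fun σ x hx => ⟨hEs σ x hx.1, radIm_s σ hx.2⟩)
        (fun c hc hcE x hx => ⟨hcE x hx.1, radIm_op hc hx.2⟩)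
        (fun x hx y hy => radIm_isotropic hD hx.2 hy.2)
    intro z hz
    have h2 : op u z ∈ E ⊓ radIm P A V := ⟨huE z (radIm_le hD hz), radIm_op hu hz⟩
    rwa [h1, Submodule.mem_bot] at h2
  obtain ⟨p, hpC, hp⟩ := exists_rep' (V := V) A hD
  have hpa := starSpan_le A hpC
  have hpe := P.alg_le_ev _ hpa
  -- `u' = u (1 - p)` kills the image
  have hδ : ∀ y, op (delta P V) y = y := by
    intro y
    rw [op_apply, delta, ← pushF_pull_mul, ← pushF_comp, pull_pull, lift_fst, lift_snd,
      pull_id_apply, pushF_id, mul_one]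
  set u' := comp (delta P V - p) u with hu'
  have hu'a : u' ∈ P.alg _ := comp_mem (Submodule.sub_mem _ (delta_mem V) hpa) hu
  have hu'e := P.alg_le_ev _ hu'a
  have hu'op : ∀ y, op u' y = op u (y - op p y) := by
    intro y
    rw [hu', op_comp, op_sub, hδ]
  have hu'M : ∀ y ∈ image P A V, op u' y = 0 := by
    intro y hy
    refine image_induction (p := fun y => op u' y = 0) (fun i κ hκ x => ?_)
      (map_zero _) (fun a b ha hb => by rw [map_add, ha, hb, add_zero])
      (fun a b hb => by rw [map_smul, hb, smul_zero]) hy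
    have h1 : P.rad _ (comp κ p - κ) := by
      refine ⟨Submodule.sub_mem _ (comp_mem hκ hpa) hκ, fun κ' hκ' => ?_⟩
      rw [sub_mul, map_sub, tr_comp hpe,
        hp _ (Submodule.subset_span ⟨i, κ, κ', hκ, hκ', rfl⟩), tr_star_delta, sub_self]
    have h2 := hrad _ (op_mem_radIm A h1 x)
    rw [op_sub, op_comp] at h2
    rw [hu'op, ← neg_sub, map_neg, h2, neg_zero]
  have hu'N : ∀ y ∈ orth P (image P A V), op u' y = op u y := by
    intro y hy
    rw [hu'op, op_starSpan_orth A hpC hy, sub_zero]
  -- the transpose of `u'` has its image in the residual part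
  set t := P.pull (swap V) u' with ht
  have hta : t ∈ P.alg _ := P.pull_mem _ _ hu'a
  have htN : ∀ x, op t x ∈ orth P (image P A V) := by
    intro x m hm
    rw [tr_par, ← op_par (P.alg_le_ev _ hta), ht, ← tr_op_swap hu'e, hu'M m hm, mul_zero, map_zero]
  set w := comp t u' with hw
  have hwa : w ∈ P.alg _ := comp_mem hta hu'a
  have hwop : ∀ y, op w y = op u (op t y) := by
    intro y
    rw [hw, op_comp, hu'N _ (htN y)]
  have hwE : ∀ y, op w y ∈ E := fun y => by
    rw [hwop]; exact huE _ (htN y)
  have hw1 : ∀ x ∈ E, ∀ y, P.tr V (x * op w y) = P.tr V (x * y) := by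
    intro x hx y
    rw [hwop, hu1 _ (htN y) x hx, tr_par, ← op_par (P.alg_le_ev _ hta), ht, ← tr_op_swap hu'e,
      hu'N x (hEN hx), hu2 x hx, ← tr_par]
  have hw2 : ∀ x ∈ E, op w x = x := by
    intro x hx
    rw [← sub_eq_zero]
    refine hnd _ (E.sub_mem (hwE x) hx) fun y hy => ?_
    rw [mul_sub, map_sub, hw1 y hy x, sub_self]
  obtain ⟨n, e, B, he, hs⟩ := exists_piece E hE hwa hw2 hwE (fun y hy => by
      refine hnd _ (hwE y) fun x hx => ?_
      rw [hw1 x hx y]
      exact hy x hx) (fun x m hm => by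
      rw [mul_sub, map_sub, hw1 m hm x, sub_self])
  refine ⟨n, e, B, he, ?_, hs⟩
  have hmem : ∀ b, e b ∈ E := fun b => by
    rw [← hs]; exact Submodule.subset_span ⟨b, rfl⟩
  -- `w` is self-adjoint
  have hwadj : ∀ x y, P.tr V (x * op w y) = P.tr V (op w x * y) := by
    intro x y
    rw [← hw1 (op w x) (hwE x) y, tr_par, tr_par (op w x), ← op_par (P.alg_le_ev _ hwa),
      hw1 _ (hwE _) x]
  refine ⟨fun i => exists_matrix_of_span (g := (G i).g V) fun b => by
      rw [hs]; exact hEG i _ (hmem b), fun σ => exists_matrix_of_span (g := P.s σ V) fun b => by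
      rw [hs]; exact hEs σ _ (hmem b), fun F hF h1 h2 h3 h4 => ?_⟩
  rw [hs] at hF
  refine hiso F hF h1 h2 (fun c hc hcE x hx => ?_) h4
  -- replace `c` by `w c w`
  have hce := P.alg_le_ev _ hc
  have hwe := P.alg_le_ev _ hwa
  set c' := comp (comp w c) w with hc'
  have hc'a : c' ∈ P.alg _ := comp_mem (comp_mem hwa hc) hwa
  have hc'op : ∀ y, op c' y = op w (op c (op w y)) := by
    intro y
    rw [hc', op_comp (comp w c) w, op_comp w c]
  have hc't : ∀ y, op (P.pull (swap V) c') y = op w (op (P.pull (swap V) c) (op w y)) := by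
    intro y
    refine eq_of_tr fun z => ?_
    rw [← tr_op_swap (P.alg_le_ev _ hc'a), hc'op, hwadj, tr_op_swap hce, hwadj]
  have h5 := h3 c' hc'a (fun b => by rw [hs, hc'op]; exact hwE _)
    (fun b => by rw [hs, hc't]; exact hwE _) x hx
  rwa [hc'op, hw2 x (hF hx), hw2 _ (hcE x (hF hx))] at h5

end Pool.Agent.Helper11.Iso
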